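import Pool.Agent.MP_668d6d_lc.Lor

section

namespace Pool.Agent.MP_668d6d_lc

universe u

/-- The sextic. -/
def gg {E : Type*} [CommRing E] (X : E) : E := X * (X - 1) * (X - 2) * (X - 3) * (X - 4) * (X - 6)

/-- A: a derivation that does not kill a given transcendental element. -/
def DerS : Prop := ∀ (F E : Type u) [Field F] [Field E] [Algebra F E] [CharZero F] (x : E),
  Transcendental F x → ∃ d : Derivation F E E, d x = 1

/-- F: no Moebius symmetry of the roots of `gg`. -/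
def RigS : Prop := ∀ (F : Type u) [Field F] [CharZero F] (α β γ δ : F), δ * α - β * γ ≠ 0 →
  (∀ ρ ∈ ([0, 1, 2, 3, 6] : List ℤ), ∃ s ∈ ([0, 1, 2, 3, 4, 6] : List ℤ),
    γ + δ * (ρ : F) = (s : F) * (α + β * (ρ : F))) → β = 0 ∧ γ = 0 ∧ δ = α

/-- B1: adjoining a generic point of a conic adds no square roots and no points of `a Y² = gg X`. -/
def ConicS : Prop := ∀ (F E : Type u) [Field F] [Field E] [Algebra F E] [CharZero F] (x y : E)
  (α β : F), Transcendental F x → α ≠ 0 → β ≠ 0 →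
  y ^ 2 = algebraMap F E α * x ^ 2 + algebraMap F E β →
  (∀ z ∈ IntermediateField.adjoin F {x, y}, z ^ 2 ∈ (algebraMap F E).range →
    z ∈ (algebraMap F E).range) ∧
  ∀ (a : F), a ≠ 0 → ∀ X ∈ IntermediateField.adjoin F {x, y}, ∀ Y ∈ IntermediateField.adjoin F {x, y},
    algebraMap F E a * Y ^ 2 = gg X → X ∈ (algebraMap F E).range

/-- B2: adjoining a generic point of `a' y² = gg x`. -/
def SextS : Prop := ∀ (F E : Type u) [Field F] [Field E] [Algebra F E] [CharZero F] (x y : E)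
  (a' : F), Transcendental F x → a' ≠ 0 → algebraMap F E a' * y ^ 2 = gg x →
  (∀ z ∈ IntermediateField.adjoin F {x, y}, z ^ 2 ∈ (algebraMap F E).range →
    z ∈ (algebraMap F E).range) ∧
  ∀ (a : F), a ≠ 0 → ∀ X ∈ IntermediateField.adjoin F {x, y}, ∀ Y ∈ IntermediateField.adjoin F {x, y},
    algebraMap F E a * Y ^ 2 = gg X → X ∈ (algebraMap F E).range ∨ (X = x ∧ IsSquare (a * a'))

/-- C: recursion of length the cardinality of `R`, every task repeated cofinally. -/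
def RecS : Prop := ∀ (R T : Type u) [Infinite R] [Nonempty T], Cardinal.mk T ≤ Cardinal.mk R →
  ∀ (P : Set R → Prop) (Q : T → Set R → R → R → Prop), P ∅ →
  (∀ c : Set (Set R), c.Nonempty → IsChain (· ⊆ ·) c → (∀ s ∈ c, P s) → P (⋃₀ c)) →
  (∀ (t : T) (s : Set R), Cardinal.mk s < Cardinal.mk R → P s → ∃ x y, P (s ∪ {x, y}) ∧ Q t s x y) →
  ∃ s, P s ∧ ∀ (t : T) (w : Finset R), (w : Set R) ⊆ s →
    ∃ s₁ x y, (w : Set R) ⊆ s₁ ∧ s₁ ⊆ s ∧ x ∈ s ∧ y ∈ s ∧ Q t s₁ x y

/-- D3: half of a transcendence basis. -/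
def HalfS : Prop := ∀ (R I : Type u) [Field R] [CharZero R],
  Cardinal.aleph0 ≤ Algebra.trdeg ℚ R → Cardinal.mk I ≤ Cardinal.mk R →
  ∃ b : I → R, AlgebraicIndependent ℚ b ∧ ∀ s : Set R, Cardinal.mk s < Cardinal.mk R →
    ∃ x : R, Transcendental (IntermediateField.adjoin ℚ (Set.range b ∪ s)) x

/-- D1: purely transcendental extensions of the rationals inside a real closed field. -/
def PureS : Prop := ∀ (R I : Type u) [Field R] [LinearOrder R] [IsStrictOrderedRing R]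
  [IsRealClosed R] (b : I → R), AlgebraicIndependent ℚ b →
  (∀ z ∈ IntermediateField.adjoin ℚ (Set.range b), (∃ q : ℚ, z ^ 2 = q) → ∃ q : ℚ, z = q) ∧
  ∀ (a : ℚ), a ≠ 0 → ∀ X ∈ IntermediateField.adjoin ℚ (Set.range b),
    ∀ Y ∈ IntermediateField.adjoin ℚ (Set.range b), (a : R) * Y ^ 2 = gg X → ∃ q : ℚ, X = q

/-- D2: degree parity in a purely transcendental extension. -/
def ParS : Prop := ∀ (R I : Type u) [Field R] [CharZero R] (c : I → R), AlgebraicIndependent ℚ c →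
  ∀ z ∈ IntermediateField.adjoin ℚ (Set.range c), ∀ (i : I) (q : ℚ), q ≠ 0 →
    z ^ 2 ≠ (q : R) * c i ∧ ∀ j, j ≠ i → z ^ 2 ≠ c i * c j

/-- D: the base field with its parameters. -/
def BaseS : Prop := ∀ (R I : Type u) [Field R] [LinearOrder R] [IsStrictOrderedRing R]
  [IsRealClosed R], Cardinal.aleph0 ≤ Algebra.trdeg ℚ R → Cardinal.mk I ≤ Cardinal.mk R →
  ∀ I₀ : Set I, I₀.Countable →
  ∃ (A : Set R) (a : I → R), (∀ i, a i ∈ IntermediateField.adjoin ℚ A) ∧ (∀ i, 0 < a i) ∧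
    (∀ i ∈ I₀, ∃ n : ℕ, a i = n) ∧
    (∀ i j, i ≠ j → ∀ z ∈ IntermediateField.adjoin ℚ A, z ^ 2 ≠ a i * a j) ∧
    (∀ i, ∀ X ∈ IntermediateField.adjoin ℚ A, ∀ Y ∈ IntermediateField.adjoin ℚ A, Y ≠ 0 →
      a i * Y ^ 2 = gg X → i ∈ I₀ ∧ ∃ q : ℚ, X = q) ∧
    ∀ s : Set R, Cardinal.mk s < Cardinal.mk R →
      ∃ x : R, Transcendental (IntermediateField.adjoin ℚ (A ∪ s)) x

/-- G0: transcendental elements in every interval. -/
def IntS : Prop := ∀ (R : Type u) [Field R] [LinearOrder R] [IsStrictOrderedRing R]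
  (F : IntermediateField ℚ R), (∃ x : R, Transcendental F x) →
  ∀ p q : R, p < q → ∃ x : R, p < x ∧ x < q ∧ Transcendental F x

/-- G: the dense subfield with prescribed points. -/
def CoreS : Prop := ∀ (R I : Type u) [Field R] [LinearOrder R] [IsStrictOrderedRing R]
  [IsRealClosed R], Cardinal.aleph0 ≤ Algebra.trdeg ℚ R → Cardinal.mk I ≤ Cardinal.mk R →
  ∀ (I₀ : Set I), I₀.Countable → ∀ (U : I → Set R), (∀ i ∈ I₀, ∀ q : ℚ, (q : R) ∈ U i) →
  ∃ (K : Subfield R) (a : I → R), Algebra.IsAlgebraic K R ∧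
    (∀ p q : R, p < q → ∃ x ∈ K, p < x ∧ x < q) ∧
    (∀ c ∈ K, 0 < c → ∃ s ∈ K, ∃ r ∈ K, c = s ^ 2 + r ^ 2) ∧
    (∀ i, a i ∈ K) ∧ (∀ i ∈ I₀, ∃ n : ℕ, a i = n) ∧
    (∀ i, ∀ X ∈ K, ∀ Y ∈ K, Y ≠ 0 → a i * Y ^ 2 = gg X → X ∈ U i) ∧
    ∀ i, ∀ p q : R, 6 ≤ p → p < q → Set.Ioo p q ⊆ U i →
      ∃ X ∈ K, ∃ Y ∈ K, Y ≠ 0 ∧ a i * Y ^ 2 = gg X ∧ p < X ∧ X < q

/-- E1: the explicit formula is a formula. -/
def DefS : Prop := ∀ (K : Type u) [Field K] [LinearOrder K] (a : K) (A s : Set K),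
  (a ∈ A ∨ ∃ n : ℕ, a = n) →
  (∀ x : K, x ∈ s ↔ ∃ X Y t r : K, a * Y ^ 2 = gg X ∧ X ^ 2 - x ^ 2 = t ^ 2 + r ^ 2) →
  OrDefinable K A s

/-- E2: counting definable sets. -/
def CntS : Prop := ∀ (K : Type u) [Field K] [LinearOrder K] (A : Set K),
  Cardinal.mk {s : Set K | OrDefinable K A s} ≤ max Cardinal.aleph0 (Cardinal.mk A)

end Pool.Agent.MP_668d6d_lc

end

section

namespace Pool.Agent.MP_668d6d_lc

universe u

theorem der : DerS.{u} := by
  classical
  intro F E _ _ _ _ x hx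
  have h1 : AlgebraicIndepOn F id ({x} : Set E) :=
    (algebraicIndependent_singleton_iff (⟨x, rfl⟩ : ({x} : Set E))).2 hx
  obtain ⟨t, ht, hb⟩ := exists_isTranscendenceBasis_superset h1
  let i0 : t := ⟨x, ht rfl⟩
  let A := MvPolynomial t F
  let K := FractionRing A
  let L := IntermediateField.adjoin F (Set.range ((↑) : t → E))
  let e : K ≃ₐ[F] L := hb.1.aevalEquivField
  let _ : Algebra K E := ((algebraMap L E).comp e.toRingEquiv.toRingHom).toAlgebra
  let _ : Algebra A E := (MvPolynomial.aeval (R := F) ((↑) : t → E)).toRingHom.toAlgebra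
  have : IsScalarTower A K E := IsScalarTower.of_algebraMap_eq fun a =>
    (hb.1.aevalEquivField_algebraMap_apply_coe a).symm
  have : IsScalarTower F A E := IsScalarTower.of_algebraMap_eq fun a =>
    ((MvPolynomial.aeval (R := F) ((↑) : t → E)).commutes a).symm
  have : Algebra.IsAlgebraic L E := hb.isAlgebraic_field
  have : Algebra.IsAlgebraic K E :=
    Algebra.IsAlgebraic.of_ringHom_of_comp_eq e.toRingEquiv.toRingHom (RingHom.id E)
      e.surjective Function.injective_id rfl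
  have : CharZero K := algebraRat.charZero K
  have : Algebra.FormallyEtale A K := Algebra.FormallyEtale.of_isLocalization (nonZeroDivisors A)
  have : Algebra.FormallyEtale K E := Algebra.FormallyEtale.of_isSeparable K E
  have : Algebra.FormallyEtale A E := Algebra.FormallyEtale.comp A K E
  have hbc := KaehlerDifferential.isBaseChange_of_formallyEtale F A E
  let δ : Derivation F A E := MvPolynomial.mkDerivation F (Pi.single i0 (1 : E))
  let l : Ω[E⁄F] →ₗ[E] E := hbc.lift δ.liftKaehlerDifferential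
  refine ⟨l.compDer (KaehlerDifferential.D F E), ?_⟩
  have hx' : x = algebraMap A E (MvPolynomial.X i0) :=
    (MvPolynomial.aeval_X (R := F) ((↑) : t → E) i0).symm
  have h2 : KaehlerDifferential.D F E x =
      KaehlerDifferential.map F F A E (KaehlerDifferential.D F A (MvPolynomial.X i0)) := by
    rw [KaehlerDifferential.map_D, ← hx']
  change l (KaehlerDifferential.D F E x) = 1
  rw [h2, IsBaseChange.lift_eq, Derivation.liftKaehlerDifferential_comp_D]
  exact (MvPolynomial.mkDerivation_X F _ i0).trans (Pi.single_eq_same i0 1)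

end Pool.Agent.MP_668d6d_lc

end

section

namespace Pool.Agent.MP_668d6d_lc

universe u

theorem rig_fin : ∀ a ∈ ([0, 1, 2, 3, 4, 6] : List ℤ), ∀ b ∈ ([0, 1, 2, 3, 4, 6] : List ℤ), a ≠ b →
    ∀ c ∈ ([0, 1, 2, 3, 4, 6] : List ℤ), a ≠ c → b ≠ c → ∀ d ∈ ([0, 1, 2, 3, 4, 6] : List ℤ),
    4 * ((a - b) * (c - d)) = (a - c) * (b - d) → ∀ e ∈ ([0, 1, 2, 3, 4, 6] : List ℤ),
    10 * ((a - b) * (c - e)) = 4 * ((a - c) * (b - e)) → a = 0 ∧ b = 1 ∧ c = 2 := by
  decide +kernel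

theorem rig_pair {F : Type u} [Field F] {α β γ δ r s r' s' : F} (h : γ + δ * r = s * (α + β * r))
    (h' : γ + δ * r' = s' * (α + β * r')) :
    (s - s') * ((α + β * r) * (α + β * r')) = (δ * α - β * γ) * (r - r') := by
  linear_combination (α + β * r) * h' - (α + β * r') * h

theorem rig_ne {F : Type u} [Field F] [CharZero F] {α β γ δ : F} {r s r' s' : ℤ}
    (hD : δ * α - β * γ ≠ 0) (hr : r ≠ r') (h : γ + δ * r = s * (α + β * r))
    (h' : γ + δ * r' = s' * (α + β * r')) : s ≠ s' ∧ α + β * r ≠ 0 := by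
  have e := rig_pair h h'
  have n : (δ * α - β * γ) * ((r : F) - r') ≠ 0 :=
    mul_ne_zero hD (sub_ne_zero.2 (by exact_mod_cast hr))
  refine ⟨fun k => n ?_, fun k => n ?_⟩
  · rw [← e, k, sub_self, zero_mul]
  · rw [← e, k, zero_mul, mul_zero]

theorem rig : RigS.{u} := by
  intro F _ _ α β γ δ hD h
  obtain ⟨a, ha, h0⟩ := h 0 (by simp)
  obtain ⟨b, hb, h1⟩ := h 1 (by simp)
  obtain ⟨c, hc, h2⟩ := h 2 (by simp)
  obtain ⟨d, hd, h3⟩ := h 3 (by simp)
  obtain ⟨e, he, h6⟩ := h 6 (by simp)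
  obtain ⟨n01, u0⟩ := rig_ne hD (by decide) h0 h1
  obtain ⟨n12, u1⟩ := rig_ne hD (by decide) h1 h2
  obtain ⟨n20, u2⟩ := rig_ne hD (by decide) h2 h0
  obtain ⟨-, u3⟩ := rig_ne hD (by decide) h3 h0
  obtain ⟨-, u6⟩ := rig_ne hD (by decide) h6 h0
  have p01 := rig_pair h0 h1
  have p02 := rig_pair h0 h2
  have p23 := rig_pair h2 h3
  have p13 := rig_pair h1 h3
  have p26 := rig_pair h2 h6
  have p16 := rig_pair h1 h6
  generalize α + β * ((3 : ℤ) : F) = w3 at u3 p23 p13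
  generalize α + β * ((6 : ℤ) : F) = w6 at u6 p26 p16
  have k : a = 0 ∧ b = 1 ∧ c = 2 := by
    generalize α + β * ((0 : ℤ) : F) = w0 at u0 p01 p02
    generalize α + β * ((1 : ℤ) : F) = w1 at u1 p01 p13 p16
    generalize α + β * ((2 : ℤ) : F) = w2 at u2 p02 p23 p26
    generalize δ * α - β * γ = D at p01 p02 p23 p13 p26 p16
    push_cast at p01 p02 p23 p13 p26 p16
    refine rig_fin a ha b hb n01 c hc n20.symm n12 d hd ?_ e he ?_
    · have : (4 : F) * ((a - b) * (c - d)) = (a - c) * (b - d) := by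
        refine mul_right_cancel₀ (mul_ne_zero (mul_ne_zero u0 u1) (mul_ne_zero u2 u3)) ?_
        linear_combination (4 * ((c - d : F) * (w2 * w3))) * p01 - 4 * D * p23 -
          ((b - d : F) * (w1 * w3)) * p02 + 2 * D * p13
      exact_mod_cast this
    · have : (10 : F) * ((a - b) * (c - e)) = 4 * ((a - c) * (b - e)) := by
        refine mul_right_cancel₀ (mul_ne_zero (mul_ne_zero u0 u1) (mul_ne_zero u2 u6)) ?_
        linear_combination (10 * ((c - e : F) * (w2 * w6))) * p01 - 10 * D * p26 -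
          (4 * ((b - e : F) * (w1 * w6))) * p02 + 8 * D * p16
      exact_mod_cast this
  obtain ⟨rfl, rfl, rfl⟩ := k
  push_cast at h0 h1 h2
  have e1 : β = 0 := by
    have : (2 : F) * β = 0 := by linear_combination 2 * h1 - h0 - h2
    exact (mul_eq_zero.1 this).resolve_left two_ne_zero
  exact ⟨e1, by linear_combination h0, by linear_combination h1 - h0 + e1⟩

end Pool.Agent.MP_668d6d_lc

end

section

/-! Arithmetic of the ring `F[x, y]`, `y² = f x`, with `f` separable. -/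

namespace Pool.Agent.MP_668d6d_lc

open Polynomial

variable {F E : Type*} [Field F] [Field E] [Algebra F E]

/-- A generic point of the curve `y² = f x`. -/
structure Hyp (x y : E) (f : F[X]) : Prop where
  tr : Transcendental F x
  sep : f.Separable
  deg : f.natDegree ≠ 0
  eq : y ^ 2 = aeval x f

theorem stepA_sq_dvd {f γ u : F[X]} (hf : Squarefree f) (h : γ ^ 2 ∣ u ^ 2 * f) : γ ∣ u := by
  classical
  by_cases hγ : γ = 0
  · subst hγ
    have : u ^ 2 * f = 0 := by simpa using h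
    rcases mul_eq_zero.1 this with h1 | h1
    · rw [pow_eq_zero_iff two_ne_zero] at h1; simp [h1]
    · exact absurd h1 hf.ne_zero
  obtain ⟨γ', u', hγ', hu', hc⟩ := extract_gcd γ u
  have hδ : gcd γ u ≠ 0 := fun h0 => hγ (by rw [hγ', h0, zero_mul])
  have hcop : IsCoprime γ' u' := (gcd_isUnit_iff _ _).1 hc
  have h1 : γ' ^ 2 ∣ u' ^ 2 * f := by
    have h2 : (gcd γ u) ^ 2 * γ' ^ 2 ∣ (gcd γ u) ^ 2 * (u' ^ 2 * f) := by
      have e1 : (gcd γ u) ^ 2 * γ' ^ 2 = γ ^ 2 := by rw [← mul_pow, ← hγ']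
      have e2 : (gcd γ u) ^ 2 * (u' ^ 2 * f) = u ^ 2 * f := by rw [← mul_assoc, ← mul_pow, ← hu']
      rw [e1, e2]; exact h
    exact (mul_dvd_mul_iff_left (pow_ne_zero 2 hδ)).1 h2
  have h3 : γ' * γ' ∣ f := by
    rw [← sq]; exact (hcop.pow (m := 2) (n := 2)).dvd_of_dvd_mul_left h1
  have h4 : IsUnit γ' := hf γ' h3
  have h5 : γ ∣ gcd γ u := by
    conv_lhs => rw [hγ']
    exact (h4.mul_right_dvd).2 dvd_rfl
  exact h5.trans (gcd_dvd_right γ u)

theorem stepA_nosq {f q w : F[X]} {c : F} (hf : Squarefree f) (hd : f.natDegree ≠ 0) (hw : w ≠ 0)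
    (h : q ^ 2 * f = C c * w ^ 2) : q = 0 := by
  obtain ⟨q₁, rfl⟩ : w ∣ q := stepA_sq_dvd hf ⟨C c, by rw [h]; ring⟩
  have h1 : q₁ ^ 2 * f = C c := mul_left_cancel₀ (pow_ne_zero 2 hw) (by linear_combination h)
  by_contra hq
  have hq₁ : q₁ ≠ 0 := fun h0 => hq (by rw [h0, mul_zero])
  have h2 := congrArg natDegree h1
  rw [natDegree_mul (pow_ne_zero 2 hq₁) hf.ne_zero, natDegree_C] at h2
  omega

variable {x y : E} {f : F[X]}

theorem Hyp.inj (h : Hyp x y f) {p q : F[X]} (e : aeval x p = aeval x q) : p = q :=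
  transcendental_iff_injective.1 h.tr e

theorem Hyp.ne (h : Hyp x y f) {p : F[X]} (hp : p ≠ 0) : aeval x p ≠ 0 :=
  fun e => hp (h.inj (by simpa using e))

theorem Hyp.y_ne (h : Hyp x y f) : y ≠ 0 := fun e => h.ne h.sep.ne_zero (by rw [← h.eq, e]; simp)

theorem Hyp.uniq (h : Hyp x y f) {p q : F[X]} (e : aeval x p + aeval x q * y = 0) :
    p = 0 ∧ q = 0 := by
  have h1 : q ^ 2 * f = C 1 * p ^ 2 := h.inj (by
    simp only [map_mul, map_pow, ← h.eq, map_one, one_mul]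
    linear_combination (aeval x q * y - aeval x p) * e)
  by_cases hp : p = 0
  · refine ⟨hp, ?_⟩
    rw [hp] at h1
    have : q ^ 2 * f = 0 := by simpa using h1
    exact pow_eq_zero_iff two_ne_zero |>.1 ((mul_eq_zero.1 this).resolve_right h.sep.ne_zero)
  · have hq := stepA_nosq h.sep.squarefree h.deg hp h1
    rw [hq] at e
    exact absurd (by simpa using e) (h.ne hp)

theorem stepA_x_mem (x y : E) : x ∈ Algebra.adjoin F {x, y} := Algebra.subset_adjoin (by simp)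

theorem stepA_y_mem (x y : E) : y ∈ Algebra.adjoin F {x, y} := Algebra.subset_adjoin (by simp)

theorem stepA_aeval_mem {V : Subalgebra F E} {z : E} (hz : z ∈ V) (p : F[X]) : aeval z p ∈ V :=
  (Algebra.adjoin_le (Set.singleton_subset_iff.2 hz) : Algebra.adjoin F {z} ≤ V)
    (Polynomial.aeval_mem_adjoin_singleton F z)

theorem stepA_ax (x y : E) (p : F[X]) : aeval x p ∈ Algebra.adjoin F {x, y} :=
  stepA_aeval_mem (stepA_x_mem x y) p

theorem Hyp.mem_B (h : Hyp x y f) {z : E} (hz : z ∈ Algebra.adjoin F {x, y}) :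
    ∃ p q : F[X], z = aeval x p + aeval x q * y := by
  induction hz using Algebra.adjoin_induction with
  | mem z hz =>
    rcases hz with rfl | rfl
    · exact ⟨X, 0, by simp⟩
    · exact ⟨0, 1, by simp⟩
  | algebraMap r => exact ⟨C r, 0, by simp⟩
  | add a b _ _ ha hb =>
    obtain ⟨p, q, rfl⟩ := ha
    obtain ⟨p', q', rfl⟩ := hb
    exact ⟨p + p', q + q', by simp only [map_add]; ring⟩
  | mul a b _ _ ha hb =>
    obtain ⟨p, q, rfl⟩ := ha
    obtain ⟨p', q', rfl⟩ := hb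
    exact ⟨p * p' + q * q' * f, p * q' + q * p', by
      simp only [map_add, map_mul, ← h.eq]; ring⟩

theorem Hyp.rep (h : Hyp x y f) {z : E} (hz : z ∈ IntermediateField.adjoin F {x, y}) :
    ∃ p q w : F[X], w ≠ 0 ∧ z * aeval x w = aeval x p + aeval x q * y := by
  obtain ⟨r, hr, s, hs, rfl⟩ := IntermediateField.mem_adjoin_iff_div.1 hz
  obtain ⟨p, q, rfl⟩ := h.mem_B hr
  obtain ⟨p', q', rfl⟩ := h.mem_B hs
  by_cases h0 : aeval x p' + aeval x q' * y = 0
  · exact ⟨0, 0, 1, one_ne_zero, by simp [h0]⟩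
  have h1 : aeval x p' - aeval x q' * y ≠ 0 := fun e => by
    obtain ⟨e1, e2⟩ := h.uniq (p := p') (q := -q') (by simpa [sub_eq_add_neg] using e)
    exact h0 (by simp [e1, neg_eq_zero.1 e2])
  have h2 : aeval x (p' ^ 2 - q' ^ 2 * f) =
      (aeval x p' + aeval x q' * y) * (aeval x p' - aeval x q' * y) := by
    simp only [map_sub, map_mul, map_pow, ← h.eq]; ring
  refine ⟨p * p' - q * q' * f, q * p' - p * q', p' ^ 2 - q' ^ 2 * f, fun e => ?_, ?_⟩
  · rw [e, map_zero] at h2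
    exact mul_ne_zero h0 h1 h2.symm
  · rw [h2, ← mul_assoc, div_mul_cancel₀ _ h0]
    simp only [map_sub, map_mul, ← h.eq]; ring

/-- The Pruefer property of `F[x, y]`. -/
theorem Hyp.prufer [CharZero F] (h : Hyp x y f) {z : E}
    (hz : z ∈ IntermediateField.adjoin F {x, y}) (hz0 : z ≠ 0) :
    ∃ s ∈ Algebra.adjoin F {x, y}, s * z ∈ Algebra.adjoin F {x, y} ∧
      (1 - s) * z⁻¹ ∈ Algebra.adjoin F {x, y} := by
  obtain ⟨p, q, w, hw, e⟩ := h.rep hz
  obtain ⟨γ, hγ⟩ := (IsPrincipalIdealRing.principal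
    (Ideal.span {w ^ 2, p * w, p ^ 2 - q ^ 2 * f} : Ideal F[X])).principal
  have hγ' : (Ideal.span {w ^ 2, p * w, p ^ 2 - q ^ 2 * f} : Ideal F[X]) = Ideal.span {γ} := hγ
  have hd : ∀ a ∈ ({w ^ 2, p * w, p ^ 2 - q ^ 2 * f} : Set F[X]), γ ∣ a := fun a ha =>
    Ideal.mem_span_singleton.1 (hγ' ▸ Ideal.subset_span ha)
  obtain ⟨A, hA⟩ := hd (w ^ 2) (by simp)
  obtain ⟨α, hα⟩ := hd (p * w) (by simp)
  obtain ⟨N, hN⟩ := hd (p ^ 2 - q ^ 2 * f) (by simp)
  have hγ0 : γ ≠ 0 := fun e0 => pow_ne_zero 2 hw (by rw [hA, e0, zero_mul])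
  have hm : γ ∈ (Ideal.span {w ^ 2, p * w, p ^ 2 - q ^ 2 * f} : Ideal F[X]) :=
    hγ' ▸ Ideal.mem_span_singleton_self γ
  obtain ⟨l₁, v, hv, e1⟩ := Ideal.mem_span_insert.1 hm
  obtain ⟨l₂, l₃, rfl⟩ := Ideal.mem_span_pair.1 hv
  have hb : l₁ * A + l₂ * α + l₃ * N = 1 :=
    mul_left_cancel₀ hγ0 (by rw [hA, hα, hN] at e1; linear_combination -e1)
  obtain ⟨β, hβ⟩ : γ ∣ w * q := stepA_sq_dvd h.sep.squarefree ⟨α ^ 2 - A * N, by
    linear_combination (p * w + γ * α) * hα - (p ^ 2 - q ^ 2 * f) * hA - γ * A * hN⟩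
  have hγx := h.ne hγ0
  have cA := congrArg (aeval x) hA
  have cα := congrArg (aeval x) hα
  have cN := congrArg (aeval x) hN
  have cβ := congrArg (aeval x) hβ
  have cb := congrArg (aeval x) hb
  simp only [map_add, map_sub, map_mul, map_pow, map_one, ← h.eq] at cA cα cN cβ cb
  have e2 : aeval x A * z = aeval x α + aeval x β * y :=
    mul_left_cancel₀ hγx (by linear_combination -z * cA + aeval x w * e + cα + y * cβ)
  have e3 : (aeval x A * z - 2 * aeval x α) * z = -aeval x N :=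
    mul_left_cancel₀ hγx (by
      linear_combination -z ^ 2 * cA + 2 * z * cα - cN +
        (z * aeval x w - aeval x p + aeval x q * y) * e)
  have hB := stepA_ax (F := F) x y
  have m1 : aeval x A * z ∈ Algebra.adjoin F {x, y} :=
    e2 ▸ add_mem (hB _) (mul_mem (hB _) (stepA_y_mem x y))
  have m2 : aeval x A * z - 2 * aeval x α ∈ Algebra.adjoin F {x, y} :=
    sub_mem m1 (mul_mem (ofNat_mem _ 2) (hB _))
  have hh : algebraMap F E 2⁻¹ * 2 = 1 := by
    rw [← map_ofNat (algebraMap F E) 2, ← map_mul, inv_mul_cancel₀ two_ne_zero, map_one]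
  have mh : algebraMap F E 2⁻¹ ∈ Algebra.adjoin F {x, y} := Subalgebra.algebraMap_mem _ _
  refine ⟨aeval x l₁ * aeval x A - algebraMap F E 2⁻¹ * aeval x l₂ * (aeval x A * z - 2 * aeval x α),
    sub_mem (mul_mem (hB _) (hB _)) (mul_mem (mul_mem mh (hB _)) m2), ?_, ?_⟩
  · have : (aeval x l₁ * aeval x A -
        algebraMap F E 2⁻¹ * aeval x l₂ * (aeval x A * z - 2 * aeval x α)) * z =
        aeval x l₁ * (aeval x A * z) + algebraMap F E 2⁻¹ * aeval x l₂ * aeval x N := by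
      linear_combination -(algebraMap F E 2⁻¹ * aeval x l₂) * e3
    rw [this]
    exact add_mem (mul_mem (hB _) m1) (mul_mem (mul_mem mh (hB _)) (hB _))
  · have : (1 - (aeval x l₁ * aeval x A -
        algebraMap F E 2⁻¹ * aeval x l₂ * (aeval x A * z - 2 * aeval x α))) * z⁻¹ =
        algebraMap F E 2⁻¹ * aeval x l₂ * aeval x A - aeval x l₃ * (aeval x A * z - 2 * aeval x α) := by
      rw [mul_inv_eq_iff_eq_mul₀ hz0]
      linear_combination -cb + aeval x l₃ * e3 - aeval x l₂ * aeval x α * hh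
    rw [this]
    exact sub_mem (mul_mem (mul_mem mh (hB _)) (hB _)) (mul_mem (hB _) m2)

theorem Hyp.sq_mem [CharZero F] (h : Hyp x y f) {z : E}
    (hz : z ∈ IntermediateField.adjoin F {x, y}) (h2 : z ^ 2 ∈ Algebra.adjoin F {x, y}) :
    z ∈ Algebra.adjoin F {x, y} := by
  by_cases hz0 : z = 0
  · rw [hz0]; exact zero_mem _
  obtain ⟨s, _, h3, h4⟩ := h.prufer hz hz0
  have : z = s * z + (1 - s) * z⁻¹ * z ^ 2 := by field_simp; ring
  rw [this]
  exact add_mem h3 (mul_mem h4 h2)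

theorem stepA_wr [CharZero F] {p w : F[X]} (hw : w ≠ 0)
    (h : derivative p * w = p * derivative w) : ∃ c : F, p = C c * w := by
  classical
  obtain ⟨p', w', hp', hw', hc⟩ := extract_gcd p w
  have hδ : gcd p w ≠ 0 := fun h0 => hw (by rw [hw', h0, zero_mul])
  have hcop : IsCoprime p' w' := (gcd_isUnit_iff _ _).1 hc
  generalize gcd p w = δ at hp' hw' hδ
  subst hp' hw'
  have h1 : wronskian p' w' = 0 := mul_left_cancel₀ (pow_ne_zero 2 hδ) (by
    simp only [derivative_mul] at h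
    simp only [wronskian]
    linear_combination -h)
  obtain ⟨h2, h3⟩ := hcop.wronskian_eq_zero_iff.1 h1
  have e1 := eq_C_of_natDegree_eq_zero (Polynomial.derivative_eq_zero.1 h2)
  have e2 := eq_C_of_natDegree_eq_zero (Polynomial.derivative_eq_zero.1 h3)
  have hw0 : w'.coeff 0 ≠ 0 := fun e => hw (by rw [e2, e]; simp)
  refine ⟨p'.coeff 0 / w'.coeff 0, ?_⟩
  rw [e1, e2]
  simp only [coeff_C_zero]
  rw [mul_left_comm, ← C_mul, div_mul_cancel₀ _ hw0]

theorem Hyp.dy (h : Hyp x y f) (d : Derivation F E E) (hd : d x = 1) :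
    2 * (y * d y) = aeval x (derivative f) := by
  have := congrArg d h.eq
  rw [Derivation.map_aeval, hd, Derivation.leibniz_pow] at this
  simpa [mul_assoc] using this

/-- The constants of the derivation. -/
theorem Hyp.ker [CharZero F] (h : Hyp x y f) (d : Derivation F E E) (hd : d x = 1) {z : E}
    (hz : z ∈ IntermediateField.adjoin F {x, y}) (h0 : d z = 0) : z ∈ (algebraMap F E).range := by
  obtain ⟨p, q, w, hw, e⟩ := h.rep hz
  have e1 := congrArg d e
  simp only [map_add, Derivation.leibniz, Derivation.map_aeval, hd, h0, smul_eq_mul, mul_one,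
    mul_zero, add_zero] at e1
  obtain ⟨h1, h2⟩ := h.uniq
    (p := w * (2 * derivative q * f + q * derivative f) - 2 * q * derivative w * f)
    (q := 2 * (derivative p * w - p * derivative w)) (by
      simp only [map_add, map_sub, map_mul, map_ofNat, ← h.eq, ← h.dy d hd]
      linear_combination -2 * y * aeval x w * e1 + 2 * y * aeval x (derivative w) * e)
  have h3 : derivative p * w = p * derivative w :=
    sub_eq_zero.1 ((mul_eq_zero.1 h2).resolve_left two_ne_zero)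
  obtain ⟨c, rfl⟩ := stepA_wr hw h3
  obtain ⟨c', hc'⟩ := stepA_wr (p := q ^ 2 * f) (pow_ne_zero 2 hw) (by
    simp only [derivative_mul, derivative_sq, map_ofNat]
    linear_combination q * w * h1)
  have hq := stepA_nosq h.sep.squarefree h.deg hw hc'
  refine ⟨c, mul_right_cancel₀ (h.ne hw) ?_⟩
  rw [e, hq]; simp

end Pool.Agent.MP_668d6d_lc

end

section

/-! Regular differentials on `y² = f x` and points of a sextic curve over its function field. -/

namespace Pool.Agent.MP_668d6d_lc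

open Polynomial

variable {F E : Type*} [Field F] [Field E] [Algebra F E]

/-- The localisation of `B` at the powers of `s`. -/
def locAt (B : Subalgebra F E) (s : E) (hs : s ∈ B) : Subalgebra F E where
  carrier := {z | ∃ n : ℕ, s ^ n * z ∈ B}
  mul_mem' := by
    rintro a b ⟨n, ha⟩ ⟨m, hb⟩
    refine ⟨n + m, ?_⟩
    have : s ^ (n + m) * (a * b) = (s ^ n * a) * (s ^ m * b) := by ring
    rw [this]; exact mul_mem ha hb
  add_mem' := by
    rintro a b ⟨n, ha⟩ ⟨m, hb⟩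
    refine ⟨n + m, ?_⟩
    have : s ^ (n + m) * (a + b) = s ^ m * (s ^ n * a) + s ^ n * (s ^ m * b) := by ring
    rw [this]; exact add_mem (mul_mem (pow_mem hs _) ha) (mul_mem (pow_mem hs _) hb)
  algebraMap_mem' r := ⟨0, by simp⟩

theorem stepB_glue {B : Subalgebra F E} {s z : E} (hs : s ∈ B) (hs' : 1 - s ∈ B)
    (h1 : z ∈ locAt B s hs) (h2 : z ∈ locAt B (1 - s) hs') : z ∈ B := by
  obtain ⟨n, h1⟩ := h1
  obtain ⟨m, h2⟩ := h2
  have hc : IsCoprime (⟨s, hs⟩ : B) ⟨1 - s, hs'⟩ := ⟨1, 1, Subtype.ext (by simp)⟩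
  obtain ⟨a, b, e⟩ := hc.pow (m := n) (n := m)
  have e' : (a : E) * s ^ n + b * (1 - s) ^ m = 1 := by simpa using congrArg Subtype.val e
  have : z = a * (s ^ n * z) + b * ((1 - s) ^ m * z) := by linear_combination -z * e'
  rw [this]
  exact add_mem (mul_mem a.2 h1) (mul_mem b.2 h2)

theorem stepB_locD {B : Subalgebra F E} {s y : E} (hs : s ∈ B) (d : Derivation F E E)
    (hB : ∀ z ∈ B, y * d z ∈ B) : ∀ z ∈ locAt B s hs, y * d z ∈ locAt B s hs := by
  rintro z ⟨n, hz⟩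
  refine ⟨n + 1, ?_⟩
  have e : s ^ (n + 1) * (y * d z) = s * (y * d (s ^ n * z)) - n * (y * d s) * (s ^ n * z) := by
    rw [Derivation.leibniz, Derivation.leibniz_pow]
    cases n with
    | zero => simp
    | succ k => simp only [smul_eq_mul, nsmul_eq_mul, Nat.add_sub_cancel]; ring
  rw [e]
  exact sub_mem (mul_mem hs (hB _ hz)) (mul_mem (mul_mem (natCast_mem _ n) (hB _ hs)) hz)

theorem stepB_chart {V : Subalgebra F E} {y X Y : E} {g : F[X]} (d : Derivation F E E)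
    (hV : ∀ z ∈ V, y * d z ∈ V) (hg : g.Separable) (hX : X ∈ V) (hY : Y ∈ V) (hY0 : Y ≠ 0)
    (e : Y ^ 2 = aeval X g) : y * d X / Y ∈ V := by
  obtain ⟨u, v, huv⟩ := hg
  have h1 := congrArg (aeval X) huv
  have h2 := congrArg d e
  rw [Derivation.map_aeval, Derivation.leibniz_pow] at h2
  simp only [map_add, map_mul, map_one, ← e] at h1
  simp only [smul_eq_mul, nsmul_eq_mul, Nat.cast_ofNat, Nat.add_one_sub_one, pow_one] at h2
  have : y * d X / Y = aeval X u * Y * (y * d X) + aeval X v * 2 * (y * d Y) := by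
    rw [div_eq_iff hY0]
    linear_combination -(y * d X) * h1 - aeval X v * y * h2
  rw [this]
  exact add_mem (mul_mem (mul_mem (stepA_aeval_mem hX _) hY) (hV _ hX))
    (mul_mem (mul_mem (stepA_aeval_mem hX _) (ofNat_mem _ 2)) (hV _ hY))

variable [CharZero F] {x y : E} {f : F[X]}

theorem Hyp.stable (h : Hyp x y f) (d : Derivation F E E) (hd : d x = 1) :
    ∀ z ∈ Algebra.adjoin F {x, y}, y * d z ∈ Algebra.adjoin F {x, y} := by
  intro z hz
  obtain ⟨p, q, rfl⟩ := h.mem_B hz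
  have hh : algebraMap F E 2⁻¹ * 2 = 1 := by
    rw [← map_ofNat (algebraMap F E) 2, ← map_mul, inv_mul_cancel₀ two_ne_zero, map_one]
  have e : y * d (aeval x p + aeval x q * y) = aeval x (derivative p) * y +
      aeval x (derivative q) * aeval x f +
      algebraMap F E 2⁻¹ * aeval x q * aeval x (derivative f) := by
    simp only [map_add, Derivation.leibniz, Derivation.map_aeval, hd, smul_eq_mul, mul_one,
      ← h.eq, ← h.dy d hd]
    linear_combination -(aeval x q * y * d y) * hh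
  rw [e]
  have hB := stepA_ax (F := F) x y
  exact add_mem (add_mem (mul_mem (hB _) (stepA_y_mem x y)) (mul_mem (hB _) (hB _)))
    (mul_mem (mul_mem (Subalgebra.algebraMap_mem _ _) (hB _)) (hB _))

theorem Hyp.loc_sq (h : Hyp x y f) {s z : E} (hs : s ∈ Algebra.adjoin F {x, y})
    (hz : z ∈ IntermediateField.adjoin F {x, y}) (h2 : z ^ 2 ∈ locAt _ s hs) :
    z ∈ locAt _ s hs := by
  obtain ⟨n, h2⟩ := h2
  refine ⟨n, h.sq_mem (mul_mem (pow_mem (IntermediateField.algebra_adjoin_le_adjoin F _ hs) n) hz) ?_⟩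
  have : (s ^ n * z) ^ 2 = s ^ n * (s ^ n * z ^ 2) := by ring
  rw [this]
  exact mul_mem (pow_mem hs n) h2

/-- The pulled back differentials are regular on the affine chart. -/
theorem Hyp.reg (h : Hyp x y f) (d : Derivation F E E) (hd : d x = 1) {X Y : E} {g g₂ : F[X]}
    (hg : g.Separable) (hg₂ : g₂.Separable) (hX : X ∈ IntermediateField.adjoin F {x, y})
    (hY : Y ∈ IntermediateField.adjoin F {x, y}) (hX0 : X ≠ 0) (hY0 : Y ≠ 0)
    (e : Y ^ 2 = aeval X g) (e₂ : (Y * X⁻¹ ^ 3) ^ 2 = aeval X⁻¹ g₂) :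
    y * d X / Y ∈ Algebra.adjoin F {x, y} ∧ X * (y * d X / Y) ∈ Algebra.adjoin F {x, y} := by
  obtain ⟨s, hs, h1, h2⟩ := h.prufer hX hX0
  have hs' : 1 - s ∈ Algebra.adjoin F {x, y} := sub_mem (one_mem _) hs
  have a1 : X ∈ locAt _ s hs := ⟨1, by simpa using h1⟩
  have a2 : Y ∈ locAt _ s hs := h.loc_sq hs hY (e ▸ stepA_aeval_mem a1 g)
  have a3 := stepB_chart d (stepB_locD hs d (h.stable d hd)) hg a1 a2 hY0 e
  have b1 : X⁻¹ ∈ locAt _ (1 - s) hs' := ⟨1, by simpa using h2⟩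
  have b2 : Y * X⁻¹ ^ 3 ∈ locAt _ (1 - s) hs' :=
    h.loc_sq hs' (mul_mem hY (pow_mem (inv_mem hX) 3)) (e₂ ▸ stepA_aeval_mem b1 g₂)
  have b3 := stepB_chart d (stepB_locD hs' d (h.stable d hd)) hg₂ b1 b2
    (mul_ne_zero hY0 (pow_ne_zero 3 (inv_ne_zero hX0))) e₂
  have b4 : X * (y * d X / Y) = -(y * d X⁻¹ / (Y * X⁻¹ ^ 3)) := by
    rw [Derivation.leibniz_inv, smul_eq_mul]; field_simp
  have b5 : X * (y * d X / Y) ∈ locAt _ (1 - s) hs' := b4 ▸ neg_mem b3
  refine ⟨stepB_glue hs hs' a3 ?_, stepB_glue hs hs' (mul_mem a1 a3) b5⟩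
  have : y * d X / Y = X⁻¹ * (X * (y * d X / Y)) := by field_simp
  rw [this]
  exact mul_mem b1 b5

omit [CharZero F] in
/-- Regular on both charts: a polynomial in `x` of degree at most `m - 2`. -/
theorem Hyp.two (h : Hyp x y f) {m : ℕ} {f₂ : F[X]} (h₂ : Hyp x⁻¹ (y * x⁻¹ ^ m) f₂) {z : E}
    (h1 : z ∈ Algebra.adjoin F {x, y})
    (h2 : x⁻¹ ^ m * x ^ 2 * z ∈ Algebra.adjoin F {x⁻¹, y * x⁻¹ ^ m}) :
    ∃ a : F[X], z = aeval x a ∧ (a = 0 ∨ a.natDegree + 2 ≤ m) := by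
  have hx : x ≠ 0 := by simpa using h.ne (p := X) X_ne_zero
  obtain ⟨a, b, rfl⟩ := h.mem_B h1
  obtain ⟨a', b', e⟩ := h₂.mem_B h2
  let _ := invertibleOfNonzero hx
  have hr : ∀ (N : ℕ) (p : F[X]), p.natDegree ≤ N →
      aeval x⁻¹ p * x ^ N = aeval x (reflect N p) ∧ (reflect N p).natDegree ≤ N := fun N p hp => by
    have hle : (reflect N p).natDegree ≤ N := natDegree_reflect_le.trans (max_le le_rfl hp)
    have := eval₂_reflect_mul_pow (algebraMap F E) x N (reflect N p) hle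
    rw [reflect_reflect, invOf_eq_inv] at this
    exact ⟨this, hle⟩
  obtain ⟨ea, da⟩ := hr (max a'.natDegree b'.natDegree) a' (le_max_left _ _)
  obtain ⟨eb, db⟩ := hr (max a'.natDegree b'.natDegree) b' (le_max_right _ _)
  generalize max a'.natDegree b'.natDegree = N at ea da eb db
  have hm : x⁻¹ ^ m * x ^ m = 1 := by rw [← mul_pow, inv_mul_cancel₀ hx, one_pow]
  obtain ⟨e1, e2⟩ := h.uniq (p := a * X ^ (2 + N) - X ^ m * reflect N a')
    (q := b * X ^ (2 + N) - reflect N b') (by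
      simp only [map_sub, map_mul, map_pow, aeval_X, ← ea, ← eb]
      linear_combination x ^ m * x ^ N * e -
        x ^ N * (x ^ 2 * (aeval x a + aeval x b * y) - aeval x⁻¹ b' * y) * hm)
  rw [sub_eq_zero] at e1 e2
  have hb : b = 0 := by
    by_contra hb
    rw [← e2, natDegree_mul_X_pow _ hb] at db
    omega
  refine ⟨a, by simp [hb], ?_⟩
  by_cases ha : a = 0
  · exact Or.inl ha
  have := natDegree_mul_le (p := (X : F[X]) ^ m) (q := reflect N a')
  rw [← e1, natDegree_mul_X_pow _ ha, natDegree_X_pow] at this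
  right; omega

theorem Hyp.key (h : Hyp x y f) {m : ℕ} {f₂ : F[X]} (h₂ : Hyp x⁻¹ (y * x⁻¹ ^ m) f₂)
    (d : Derivation F E E) (hd : d x = 1) {X Y : E} {g g₂ : F[X]}
    (hg : g.Separable) (hg₂ : g₂.Separable) (hX : X ∈ IntermediateField.adjoin F {x, y})
    (hY : Y ∈ IntermediateField.adjoin F {x, y})
    (e : Y ^ 2 = aeval X g) (e₂ : X ≠ 0 → (Y * X⁻¹ ^ 3) ^ 2 = aeval X⁻¹ g₂) :
    X ∈ (algebraMap F E).range ∨ (d X ≠ 0 ∧ ∃ a b : F[X], a ≠ 0 ∧ a.natDegree + 2 ≤ m ∧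
      (b = 0 ∨ b.natDegree + 2 ≤ m) ∧ y * d X = aeval x a * Y ∧ X * aeval x a = aeval x b) := by
  by_cases hdX : d X = 0
  · exact Or.inl (h.ker d hd hX hdX)
  refine Or.inr ⟨hdX, ?_⟩
  have hx : x ≠ 0 := by simpa using h.ne (p := Polynomial.X) X_ne_zero
  have hX0 : X ≠ 0 := fun e0 => hdX (by rw [e0, map_zero])
  have hY0 : Y ≠ 0 := fun e0 => by
    have h2 := congrArg d e
    rw [Derivation.map_aeval, e0] at h2
    rw [e0] at e
    have h3 := hg.aeval_derivative_ne_zero (x := X) (by simpa using e.symm)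
    exact mul_ne_zero h3 hdX (by simpa using h2.symm)
  obtain ⟨r1, r2⟩ := h.reg d hd hg hg₂ hX hY hX0 hY0 e (e₂ hX0)
  have hle : IntermediateField.adjoin F {x, y} ≤
      IntermediateField.adjoin F {x⁻¹, y * x⁻¹ ^ m} := by
    have m1 : x ∈ IntermediateField.adjoin F {x⁻¹, y * x⁻¹ ^ m} := by
      simpa using inv_mem (IntermediateField.subset_adjoin F {x⁻¹, y * x⁻¹ ^ m} (a := x⁻¹) (by simp))
    have m2 : y * x⁻¹ ^ m ∈ IntermediateField.adjoin F {x⁻¹, y * x⁻¹ ^ m} :=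
      IntermediateField.subset_adjoin F _ (by simp)
    rw [IntermediateField.adjoin_le_iff]
    rintro z (rfl | rfl)
    · exact m1
    · have h3 := mul_mem m2 (pow_mem m1 m)
      rwa [mul_assoc, ← mul_pow, inv_mul_cancel₀ hx, one_pow, mul_one] at h3
  have hd' : ((-x ^ 2) • d) x⁻¹ = 1 := by
    rw [Derivation.smul_apply, Derivation.leibniz_inv, hd]
    simp only [smul_eq_mul]; field_simp
  obtain ⟨s1, s2⟩ := h₂.reg ((-x ^ 2) • d) hd' hg hg₂ (hle hX) (hle hY) hX0 hY0 e (e₂ hX0)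
  rw [Derivation.smul_apply, smul_eq_mul] at s1 s2
  obtain ⟨a, ha, da⟩ := h.two h₂ r1 (by convert neg_mem s1 using 1; ring)
  obtain ⟨b, hb, db⟩ := h.two h₂ r2 (by convert neg_mem s2 using 1; ring)
  have ha0 : a ≠ 0 := fun e0 => by
    rw [e0, map_zero] at ha
    exact div_ne_zero (mul_ne_zero h.y_ne hdX) hY0 ha
  exact ⟨a, b, ha0, da.resolve_left ha0, db, by rw [← ha]; field_simp, by rw [← ha, hb]⟩

theorem Hyp.sq_range (h : Hyp x y f) (d : Derivation F E E) (hd : d x = 1) {z : E}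
    (hz : z ∈ IntermediateField.adjoin F {x, y}) (h2 : z ^ 2 ∈ (algebraMap F E).range) :
    z ∈ (algebraMap F E).range := by
  have : CharZero E := charZero_of_injective_algebraMap (algebraMap F E).injective
  obtain ⟨c, hc⟩ := h2
  have := congrArg d hc
  rw [Derivation.map_algebraMap, Derivation.leibniz_pow] at this
  by_cases h0 : z = 0
  · rw [h0]; exact zero_mem _
  exact h.ker d hd hz (by simpa [h0] using this.symm)

end Pool.Agent.MP_668d6d_lc

end

section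

/-! The two step lemmas. -/

namespace Pool.Agent.MP_668d6d_lc

open Polynomial

universe u

variable {F E : Type*} [Field F] [Field E] [Algebra F E] [CharZero F]

/-- The sextic as a polynomial. -/
noncomputable def stepCG (F : Type*) [Field F] : F[X] :=
  ∏ i ∈ ({0, 1, 2, 3, 4, 6} : Finset ℕ), (X - C (i : F))

/-- Its reversal, made monic. -/
noncomputable def stepCH (F : Type*) [Field F] : F[X] :=
  ∏ i ∈ ({1, 2, 3, 4, 6} : Finset ℕ), (X - C (i : F)⁻¹)

theorem stepC_sepG {c : F} (hc : c ≠ 0) : (C c * stepCG F).Separable :=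
  Separable.unit_mul (isUnit_C.2 hc.isUnit)
    (separable_prod_X_sub_C_iff'.2 fun _ _ _ _ h => Nat.cast_injective h)

theorem stepC_sepH {c : F} (hc : c ≠ 0) : (C c * stepCH F).Separable :=
  Separable.unit_mul (isUnit_C.2 hc.isUnit)
    (separable_prod_X_sub_C_iff'.2 fun _ _ _ _ h => Nat.cast_injective (inv_injective h))

omit [CharZero F] in
theorem stepC_degG {c : F} (hc : c ≠ 0) : (C c * stepCG F).natDegree ≠ 0 := by
  rw [natDegree_C_mul hc, stepCG, natDegree_finsetProd_X_sub_C_eq_card]; decide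

omit [CharZero F] in
theorem stepC_degH {c : F} (hc : c ≠ 0) : (C c * stepCH F).natDegree ≠ 0 := by
  rw [natDegree_C_mul hc, stepCH, natDegree_finsetProd_X_sub_C_eq_card]; decide

theorem stepC_evG {a : F} (ha : a ≠ 0) {X Y : E} (e : algebraMap F E a * Y ^ 2 = gg X) :
    Y ^ 2 = aeval X (C a⁻¹ * stepCG F) := by
  have h0 : algebraMap F E a ≠ 0 := by simpa using ha
  have : aeval X (stepCG F) = gg X := by simp [stepCG, gg, mul_assoc, map_ofNat]
  rw [map_mul, this, ← e, aeval_C, map_inv₀, inv_mul_cancel_left₀ h0]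

theorem stepC_evH {a : F} (ha : a ≠ 0) {X Y : E} (e : algebraMap F E a * Y ^ 2 = gg X)
    (hX : X ≠ 0) : (Y * X⁻¹ ^ 3) ^ 2 = aeval X⁻¹ (C (-144 * a⁻¹) * stepCH F) := by
  have : CharZero E := charZero_of_injective_algebraMap (algebraMap F E).injective
  have h0 : algebraMap F E a ≠ 0 := by simpa using ha
  have e1 : Y ^ 2 = gg X / algebraMap F E a := by rw [← e]; field_simp
  rw [mul_pow, e1]
  simp [stepCH, gg, map_ofNat]
  field_simp
  ring

theorem stepC_hypQ {x y : E} {α β : F} (hx : Transcendental F x) (hα : α ≠ 0) (hβ : β ≠ 0)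
    (e : y ^ 2 = algebraMap F E α * x ^ 2 + algebraMap F E β) : Hyp x y (C α * X ^ 2 + C β) where
  tr := hx
  sep := by
    have : C α * X ^ 2 + C β = C α * (X ^ 2 - C (-(β / α))) := by
      rw [mul_sub, ← C_mul, mul_neg, mul_div_cancel₀ _ hα]; simp
    rw [this]
    exact Separable.unit_mul (isUnit_C.2 hα.isUnit)
      (separable_X_pow_sub_C _ (by simp) (neg_ne_zero.2 (div_ne_zero hβ hα)))
  deg := by rw [natDegree_add_C, natDegree_C_mul_X_pow _ _ hα]; decide
  eq := by simp [e]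

omit [CharZero F] in
theorem stepC_inv {x : E} (hx : Transcendental F x) : Transcendental F x⁻¹ :=
  fun h => hx (IsAlgebraic.inv_iff.1 h)

omit [CharZero F] in
theorem stepC_ne {x : E} (hx : Transcendental F x) : x ≠ 0 :=
  fun h => hx (h ▸ isAlgebraic_zero)

theorem conic (hD : DerS.{u}) : ConicS.{u} := by
  intro F E _ _ _ _ x y α β hx hα hβ e
  obtain ⟨d, hd⟩ := hD F E x hx
  have h := stepC_hypQ hx hα hβ e
  have hx0 := stepC_ne hx
  have h₂ : Hyp x⁻¹ (y * x⁻¹ ^ 1) (C β * X ^ 2 + C α) :=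
    stepC_hypQ (stepC_inv hx) hβ hα (by rw [mul_pow, e]; field_simp; ring)
  refine ⟨fun z hz h2 => h.sq_range d hd hz h2, fun a ha X hX Y hY e' => ?_⟩
  have ha' : -144 * a⁻¹ ≠ 0 := mul_ne_zero (by norm_num) (inv_ne_zero ha)
  rcases h.key h₂ d hd (stepC_sepG (inv_ne_zero ha)) (stepC_sepH ha') hX hY (stepC_evG ha e')
    (stepC_evH ha e') with h1 | ⟨_, a, b, _, h1, _⟩
  · exact h1
  · omega

omit [CharZero F] in
theorem stepC_root {u v : F} (h : v * (v - u) * (v - 2 * u) * (v - 3 * u) * (v - 4 * u) *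
    (v - 6 * u) = 0) : ∃ s ∈ ([0, 1, 2, 3, 4, 6] : List ℤ), v = (s : F) * u := by
  simp only [mul_eq_zero, sub_eq_zero] at h
  rcases h with ((((h | h) | h) | h) | h) | h
  · exact ⟨0, by simp, by simpa using h⟩
  · exact ⟨1, by simp, by simpa using h⟩
  · exact ⟨2, by simp, by simpa using h⟩
  · exact ⟨3, by simp, by simpa using h⟩
  · exact ⟨4, by simp, by simpa using h⟩
  · exact ⟨6, by simp, by simpa using h⟩

theorem sext (hD : DerS.{u}) (hR : RigS.{u}) : SextS.{u} := by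
  intro F E _ _ _ _ x y a' hx ha' e
  obtain ⟨d, hd⟩ := hD F E x hx
  have hx0 := stepC_ne hx
  have hn : ∀ a : F, a ≠ 0 → -144 * a⁻¹ ≠ 0 := fun a ha =>
    mul_ne_zero (by norm_num) (inv_ne_zero ha)
  have h : Hyp x y (C a'⁻¹ * stepCG F) :=
    ⟨hx, stepC_sepG (inv_ne_zero ha'), stepC_degG (inv_ne_zero ha'), stepC_evG ha' e⟩
  have h₂ : Hyp x⁻¹ (y * x⁻¹ ^ 3) (C (-144 * a'⁻¹) * stepCH F) :=
    ⟨stepC_inv hx, stepC_sepH (hn _ ha'), stepC_degH (hn _ ha'), stepC_evH ha' e hx0⟩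
  refine ⟨fun z hz h2 => h.sq_range d hd hz h2, fun a ha X hX Y hY e' => ?_⟩
  rcases h.key h₂ d hd (stepC_sepG (inv_ne_zero ha)) (stepC_sepH (hn _ ha)) hX hY (stepC_evG ha e')
    (stepC_evH ha e') with h1 | ⟨hdX, p, q, hp, dp, dq, e1, e2⟩
  · exact Or.inl h1
  right
  have hu := h.ne hp
  obtain ⟨β, α, rfl⟩ := exists_eq_X_add_C_of_natDegree_le_one (p := p) (by omega)
  obtain ⟨δ, γ, rfl⟩ := exists_eq_X_add_C_of_natDegree_le_one (p := q) (by
    rcases dq with rfl | dq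
    · simp
    · omega)
  simp only [map_add, map_mul, aeval_C, aeval_X] at hu e1 e2
  have e3 := congrArg d e2
  simp only [map_add, Derivation.leibniz, Derivation.map_algebraMap, hd, smul_eq_mul, mul_one,
    mul_zero, add_zero] at e3
  obtain ⟨u, hu'⟩ : ∃ u, algebraMap F E β * x + algebraMap F E α = u := ⟨_, rfl⟩
  obtain ⟨Δ, hΔ'⟩ : ∃ Δ, δ * α - β * γ = Δ := ⟨_, rfl⟩
  rw [hu'] at hu e1 e2 e3
  have e4 : d X * u ^ 2 = algebraMap F E Δ := by
    simp only [← hΔ', map_sub, map_mul]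
    linear_combination u * e3 - algebraMap F E β * e2 - algebraMap F E δ * hu'
  have hΔ : Δ ≠ 0 := fun e0 => by
    rw [e0, map_zero] at e4
    exact mul_ne_zero hdX (pow_ne_zero 2 hu) e4
  have e5 : Y * u ^ 3 = y * algebraMap F E Δ := by
    linear_combination -u ^ 2 * e1 + y * e4
  have e6 : C a' * ((C δ * Polynomial.X + C γ) *
      (C δ * Polynomial.X + C γ - (C β * Polynomial.X + C α)) *
      (C δ * Polynomial.X + C γ - 2 * (C β * Polynomial.X + C α)) *
      (C δ * Polynomial.X + C γ - 3 * (C β * Polynomial.X + C α)) *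
      (C δ * Polynomial.X + C γ - 4 * (C β * Polynomial.X + C α)) *
      (C δ * Polynomial.X + C γ - 6 * (C β * Polynomial.X + C α))) =
      C a * C Δ ^ 2 * gg (Polynomial.X : F[X]) := h.inj (by
    simp only [gg, map_add, map_sub, map_mul, map_pow, aeval_C, aeval_X,
      map_ofNat, map_one, hu', ← e2] at e e' ⊢
    linear_combination -algebraMap F E a' * u ^ 6 * e' + algebraMap F E a * algebraMap F E Δ ^ 2 * e +
      algebraMap F E a * algebraMap F E a' * (Y * u ^ 3 + y * algebraMap F E Δ) * e5)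
  obtain ⟨rfl, rfl, rfl⟩ := hR F α β γ δ (hΔ' ▸ hΔ) (by
    intro ρ hρ
    have e7 := congrArg (eval (ρ : F)) e6
    have e8 : gg (ρ : F) = 0 := by
      simp only [List.mem_cons, List.not_mem_nil, or_false] at hρ
      rcases hρ with rfl | rfl | rfl | rfl | rfl <;> simp [gg]
    simp only [gg, eval_mul, eval_add, eval_sub, eval_C, eval_X, eval_ofNat, eval_pow,
      eval_one] at e7 e8
    rw [e8, mul_zero] at e7
    obtain ⟨s, hs, e9⟩ := stepC_root ((mul_eq_zero.1 e7).resolve_left ha')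
    exact ⟨s, hs, by linear_combination e9⟩)
  subst hΔ'
  simp only [map_zero, zero_mul, zero_add, add_zero, sub_zero, map_mul] at hu' e2 e5
  rw [hu'] at e2 e5
  have hXx : X = x := mul_right_cancel₀ hu (by rw [e2]; ring)
  refine ⟨hXx, δ * a', (algebraMap F E).injective ?_⟩
  have e8 : y = Y * u := mul_right_cancel₀ (pow_ne_zero 2 hu) (by linear_combination -e5)
  have hY0 : Y ≠ 0 := fun e0 => h.y_ne (by rw [e8, e0, zero_mul])
  refine mul_right_cancel₀ (pow_ne_zero 2 hY0) ?_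
  simp only [map_mul, hu']
  rw [hXx, ← e, e8] at e'
  linear_combination algebraMap F E a' * e'

end Pool.Agent.MP_668d6d_lc

end

section

/-! The recursion. -/

namespace Pool.Agent.MP_668d6d_lc

open Cardinal Set

universe u

theorem recS : RecS.{u} := by
  intro R T _ _ hT P Q h0 hU hS
  have hR := aleph0_le_mk R
  have lt : ∀ a : (mk R).ord.ToType, mk (Iio a) < mk R := fun a => by simpa using mk_Iio_lt a
  have := Cardinal.noMaxOrder hR
  have : Nonempty (mk R).ord.ToType := mk_ne_zero_iff.1 (by rw [mk_ord_toType]; exact mk_ne_zero R)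
  obtain ⟨e⟩ : Nonempty (T × (mk R).ord.ToType ≃ (mk R).ord.ToType) := Cardinal.eq.1 (by
    rw [← mul_def, mk_ord_toType, mul_eq_right hR hT (mk_ne_zero T)])
  have : ∀ t (s : Set R), ∃ p : R × R, mk s < mk R → P s → P (s ∪ {p.1, p.2}) ∧ Q t s p.1 p.2 :=
    fun t s => by
      by_cases h : mk s < mk R ∧ P s
      · obtain ⟨x, y, k⟩ := hS t s h.1 h.2
        exact ⟨(x, y), fun _ _ => k⟩
      · exact ⟨Classical.arbitrary _, fun a b => absurd ⟨a, b⟩ h⟩
  choose g hg using this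
  obtain ⟨f, hf⟩ : ∃ f : (mk R).ord.ToType → R × R, ∀ a, f a =
      g (e.symm a).1 {z | ∃ b, ∃ _ : b < a, z = (f b).1 ∨ z = (f b).2} :=
    ⟨WellFoundedLT.fix fun a r => g (e.symm a).1 {z | ∃ b, ∃ h : b < a, z = (r b h).1 ∨ z = (r b h).2},
      fun a => WellFoundedLT.fix_eq _ a⟩
  let S : Set (mk R).ord.ToType → Set R := fun L => {z | ∃ b, ∃ _ : b ∈ L, z = (f b).1 ∨ z = (f b).2}
  have mono : ∀ {L M}, L ⊆ M → S L ⊆ S M := fun h z ⟨b, k, l⟩ => ⟨b, h k, l⟩
  have card : ∀ a, mk (S (Iio a)) < mk R := fun a =>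
    (mk_le_mk_of_subset (show S (Iio a) ⊆ (fun b => (f b).1) '' Iio a ∪ (fun b => (f b).2) '' Iio a
      from fun z ⟨b, k, l⟩ => l.imp (⟨b, k, ·.symm⟩) (⟨b, k, ·.symm⟩))).trans_lt
      ((mk_union_le _ _).trans_lt (add_lt_of_lt hR (mk_image_le.trans_lt (lt a))
        (mk_image_le.trans_lt (lt a))))
  have step : ∀ a, P (S (Iio a)) → P (S (Iic a)) ∧ Q (e.symm a).1 (S (Iio a)) (f a).1 (f a).2 :=
    fun a h => by
      have := hg (e.symm a).1 _ (card a) h
      rw [← show f a = g _ (S (Iio a)) from hf a] at this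
      rwa [show S (Iic a) = S (Iio a) ∪ {(f a).1, (f a).2} from subset_antisymm
        (fun z ⟨b, k, l⟩ => (lt_or_eq_of_le (show b ≤ a from k)).imp (⟨b, ·, l⟩)
          fun q => by subst q; exact l)
        (union_subset (mono Iio_subset_Iic_self) fun z l => ⟨a, self_mem_Iic, l⟩)]
  have lim : ∀ L, IsLowerSet L → (∀ b ∈ L, P (S (Iio b))) → P (S L) := fun L hL h => by
    rcases L.eq_empty_or_nonempty with rfl | n
    · simpa [S] using h0
    rw [show S L = ⋃₀ ((fun b => S (Iic b)) '' L) from subset_antisymm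
      (fun z ⟨b, k, l⟩ => ⟨_, ⟨b, k, rfl⟩, b, self_mem_Iic, l⟩)
      (sUnion_subset (forall_mem_image.2 fun b k => mono (hL.Iic_subset k)))]
    refine hU _ (n.image _) ?_ (forall_mem_image.2 fun b k => (step b (h b k)).1)
    rintro _ ⟨b, -, rfl⟩ _ ⟨c, -, rfl⟩ -
    exact (le_total b c).imp (fun k => mono (Iic_subset_Iic.2 k)) fun k => mono (Iic_subset_Iic.2 k)
  have all : ∀ a, P (S (Iio a)) := fun a =>
    WellFoundedLT.induction (motive := fun a => P (S (Iio a))) a fun a h => lim _ (isLowerSet_Iio a) h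
  refine ⟨S univ, lim _ isLowerSet_univ fun b _ => all b, fun t w hw => ?_⟩
  choose i _ hi using hw
  obtain ⟨a, ha⟩ := Finite.exists_le fun z : w => i z.2
  obtain ⟨b, hb⟩ := exists_gt a
  obtain ⟨c, hc⟩ : ∃ c, b ≤ e (t, c) := by
    by_contra! h
    refine (lt b).not_ge ((mk_ord_toType _).ge.trans
      (mk_le_of_injective (f := fun c => (⟨e (t, c), h c⟩ : Iio b)) fun c c' k => ?_))
    exact (Prod.ext_iff.1 (e.injective (Subtype.ext_iff.1 k))).2
  refine ⟨S (Iio (e (t, c))), _, _, fun z k => ⟨i k, ((ha ⟨z, k⟩).trans_lt hb).trans_le hc, hi k⟩,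
    mono (subset_univ _), ⟨e (t, c), trivial, .inl rfl⟩, ⟨e (t, c), trivial, .inr rfl⟩, ?_⟩
  simpa using (step _ (all (e (t, c)))).2

end Pool.Agent.MP_668d6d_lc

end

section

namespace Pool.Agent.MP_668d6d_lc

open Cardinal Set

universe u

theorem half : HalfS.{u} := by
  intro R I _ _ hR hI
  obtain ⟨j, v, hv⟩ := exists_isTranscendenceBasis' ℚ R
  have hj : ℵ₀ ≤ Cardinal.mk j := hv.cardinalMk_eq_trdeg ▸ hR
  have : Infinite j := Cardinal.aleph0_le_mk_iff.mp hj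
  have hRj : Cardinal.mk R = Cardinal.mk j := by
    have h := hv.lift_cardinalMk_eq_max_lift
    simpa [hj] using h
  obtain ⟨e⟩ : Nonempty (j ⊕ j ≃ j) := Cardinal.eq.mp (by simp [Cardinal.add_eq_self hj])
  obtain ⟨f⟩ : Nonempty (I ↪ j) := Cardinal.le_def _ _ |>.mp (hI.trans hRj.le)
  have h1 : AlgebraicIndependent ℚ (Sum.elim (v ∘ e ∘ Sum.inl) (v ∘ e ∘ Sum.inr ∘ f)) := by
    have := hv.1.comp (e ∘ Sum.map id f)
      (e.injective.comp (Sum.map_injective.mpr ⟨Function.injective_id, f.injective⟩))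
    convert this using 1
    ext (_ | _) <;> rfl
  obtain ⟨h2, h3⟩ := AlgebraicIndependent.sumElim_iff.mp h1
  refine ⟨_, h2, fun s hs => ?_⟩
  by_contra hx
  push Not at hx
  set b := v ∘ e ∘ Sum.inr ∘ f
  have h4 : Algebra.IsAlgebraic (Algebra.adjoin ℚ (range b ∪ s)) R :=
    ⟨fun x => IntermediateField.isAlgebraic_adjoin_iff.mp (not_not.mp (hx x))⟩
  rw [Algebra.adjoin_union_eq_adjoin_adjoin] at h4
  have h5 : Algebra.IsAlgebraic (Algebra.adjoin (Algebra.adjoin ℚ (range b)) s) R := h4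
  exact absurd (h3.cardinalMk_le_trdeg.trans
    (Algebra.IsAlgebraic.trdeg_le_cardinalMk (Algebra.adjoin ℚ (range b)) s))
    (not_le.mpr (hRj ▸ hs))

end Pool.Agent.MP_668d6d_lc

end

section

namespace Pool.Agent.MP_668d6d_lc

universe u

open IntermediateField

/-- No new square roots of rationals and only rational points on the curves. -/
def PureGood {R : Type u} [Field R] [CharZero R] (K : IntermediateField ℚ R) : Prop :=
  (∀ z ∈ K, (∃ q : ℚ, z ^ 2 = q) → ∃ q : ℚ, z = q) ∧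
  ∀ (a : ℚ), a ≠ 0 → ∀ X ∈ K, ∀ Y ∈ K, (a : R) * Y ^ 2 = gg X → ∃ q : ℚ, X = q

theorem pure_step (h : ConicS.{u}) {R : Type u} [Field R] [LinearOrder R] [IsStrictOrderedRing R]
    [IsRealClosed R] (S : Set R) (x : R) (hx : Transcendental (adjoin ℚ S) x)
    (hS : PureGood (adjoin ℚ S)) : PureGood (adjoin ℚ (insert x S)) := by
  obtain ⟨y, hy⟩ : IsSquare (x ^ 2 + 1) := IsSquare.of_nonneg (by positivity)
  obtain ⟨h1, h2⟩ := h (adjoin ℚ S) R x y 1 1 hx one_ne_zero one_ne_zero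
    (by rw [map_one, one_mul, hy, sq])
  have hsub : ∀ z ∈ adjoin ℚ (insert x S), z ∈ adjoin (adjoin ℚ S) {x, y} := fun z hz => by
    refine ((adjoin_adjoin_left ℚ S {x, y}).ge (adjoin.mono ℚ _ _ ?_ hz) :)
    rintro w (rfl | hw)
    · exact Or.inr (Or.inl rfl)
    · exact Or.inl hw
  have hr : ∀ z : R, z ∈ (algebraMap (adjoin ℚ S) R).range ↔ z ∈ adjoin ℚ S := fun z =>
    ⟨fun ⟨w, hw⟩ => hw ▸ w.2, fun hz => ⟨⟨z, hz⟩, rfl⟩⟩
  have hq : ∀ q : ℚ, (q : R) ∈ adjoin ℚ S := fun q => SubfieldClass.ratCast_mem _ q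
  refine ⟨fun z hz ⟨q, hzq⟩ => hS.1 z ((hr z).mp (h1 z (hsub z hz) ((hr _).mpr (hzq ▸ hq q))))
    ⟨q, hzq⟩, fun a ha X hX Y hY he => ?_⟩
  have ha' : (a : R) ≠ 0 := Rat.cast_ne_zero.mpr ha
  have hXS : X ∈ adjoin ℚ S := (hr X).mp (h2 ⟨a, hq a⟩ (fun h0 => ha' (congrArg Subtype.val h0))
    X (hsub X hX) Y (hsub Y hY) he)
  have hn : ∀ n : ℕ, X - n ∈ adjoin ℚ S := fun n => sub_mem hXS (_root_.natCast_mem _ n)
  have hg : gg X ∈ adjoin ℚ S := by
    have := mul_mem (mul_mem (mul_mem (mul_mem (mul_mem hXS (hn 1)) (hn 2)) (hn 3)) (hn 4)) (hn 6)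
    simpa only [gg, Nat.cast_one, Nat.cast_ofNat] using this
  have hY2 : Y ^ 2 ∈ adjoin ℚ S := by
    rw [show Y ^ 2 = gg X / a by rw [← he, mul_div_cancel_left₀ _ ha']]
    exact div_mem hg (hq a)
  exact hS.2 a ha X hXS Y ((hr Y).mp (h1 Y (hsub Y hY) ((hr _).mpr hY2))) he

theorem pure_fin (h : ConicS.{u}) {R I : Type u} [Field R] [LinearOrder R]
    [IsStrictOrderedRing R] [IsRealClosed R] {b : I → R} (hb : AlgebraicIndependent ℚ b)
    (t : Finset I) : PureGood (adjoin ℚ (b '' t)) := by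
  classical
  induction t using Finset.induction_on with
  | empty =>
    have h0 : ∀ z ∈ adjoin ℚ (b '' ((∅ : Finset I) : Set I)), ∃ q : ℚ, z = q := fun z hz => by
      rw [Finset.coe_empty, Set.image_empty, adjoin_empty, mem_bot] at hz
      obtain ⟨q, rfl⟩ := hz
      exact ⟨q, rfl⟩
    exact ⟨fun z hz _ => h0 z hz, fun _ _ X hX _ _ _ => h0 X hX⟩
  | insert i t hi ih =>
    rw [Finset.coe_insert, Set.image_insert_eq]
    exact pure_step h _ _ (transcendental_adjoin_iff.mpr (hb.transcendental_adjoin hi)) ih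

theorem pure_mem {R I : Type u} [Field R] [CharZero R] {b : I → R} {z : R}
    (hz : z ∈ adjoin ℚ (Set.range b)) : ∃ t : Finset I, z ∈ adjoin ℚ (b '' t) := by
  classical
  obtain ⟨T, hT, hzT⟩ := exists_finset_of_mem_adjoin hz
  rw [← Set.image_univ] at hT
  obtain ⟨t, -, rfl⟩ := Finset.subset_set_image_iff.mp hT
  exact ⟨t, by rwa [Finset.coe_image] at hzT⟩

theorem pure (h : ConicS.{u}) : PureS.{u} := by
  classical
  intro R I _ _ _ _ b hb
  refine ⟨fun z hz hq => ?_, fun a ha X hX Y hY he => ?_⟩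
  · obtain ⟨t, ht⟩ := pure_mem hz
    exact (pure_fin h hb t).1 z ht hq
  · obtain ⟨t, ht⟩ := pure_mem hX
    obtain ⟨s, hs⟩ := pure_mem hY
    refine (pure_fin h hb (t ∪ s)).2 a ha X (adjoin.mono ℚ _ _ ?_ ht) Y (adjoin.mono ℚ _ _ ?_ hs) he
    · exact Set.image_mono (Finset.coe_subset.mpr Finset.subset_union_left)
    · exact Set.image_mono (Finset.coe_subset.mpr Finset.subset_union_right)

end Pool.Agent.MP_668d6d_lc

end

section

namespace Pool.Agent.MP_668d6d_lc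

universe u

open MvPolynomial

theorem par_odd {I : Type u} (P Q T : MvPolynomial I ℚ) (i : I) (hQ : Q ≠ 0) (hT : T ≠ 0)
    (hd : degreeOf i T = 1) : P ^ 2 ≠ T * Q ^ 2 := by
  intro h
  have hP : P ≠ 0 := by
    rintro rfl
    exact mul_ne_zero hT (pow_ne_zero 2 hQ) (by rw [← h]; simp)
  have e := congrArg (degreeOf i) h
  rw [degreeOf_mul_eq hT (pow_ne_zero 2 hQ), sq, sq, degreeOf_mul_eq hP hP,
    degreeOf_mul_eq hQ hQ, hd] at e
  omega

theorem par_key {R I : Type u} [Field R] [CharZero R] (c : I → R) (hc : AlgebraicIndependent ℚ c)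
    (z : R) (hz : z ∈ IntermediateField.adjoin ℚ (Set.range c)) (i : I) (T : MvPolynomial I ℚ)
    (hT : T ≠ 0) (hd : degreeOf i T = 1) : z ^ 2 ≠ aeval c T := by
  intro h
  obtain ⟨P, Q, rfl⟩ := (IntermediateField.mem_adjoin_range_iff ℚ c z).1 hz
  have hi : Function.Injective (aeval c : MvPolynomial I ℚ →ₐ[ℚ] R) := hc
  have hT' : aeval c T ≠ 0 := fun e => hT (hi (by rw [e, map_zero]))
  have hQ' : aeval c Q ≠ 0 := by
    intro e
    rw [e, div_zero] at h
    exact hT' (by rw [← h]; simp)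
  have hQ : Q ≠ 0 := fun e => hQ' (by rw [e, map_zero])
  refine par_odd P Q T i hQ hT hd (hi ?_)
  rw [map_mul, map_pow, map_pow, ← h]
  field_simp

theorem par : ParS.{u} := by
  classical
  intro R I _ _ c hc z hz i q hq
  refine ⟨?_, fun j hj => ?_⟩
  · have := par_key c hc z hz i (C q * X i) (mul_ne_zero (by simpa using hq) (X_ne_zero i)) (by
      rw [degreeOf_mul_eq (by simpa using hq) (X_ne_zero i), degreeOf_C, degreeOf_X]
      simp)
    simpa using this
  · have := par_key c hc z hz i (X i * X j) (mul_ne_zero (X_ne_zero i) (X_ne_zero j)) (by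
      rw [degreeOf_mul_eq (X_ne_zero i) (X_ne_zero j), degreeOf_X, degreeOf_X]
      simp [hj.symm])
    simpa using this

end Pool.Agent.MP_668d6d_lc

end

section

namespace Pool.Agent.MP_668d6d_lc

universe u

open IntermediateField

theorem base_nsq {p p' : ℕ} (hp : p.Prime) (hp' : p'.Prime) (h : p ≠ p') :
    ¬ IsSquare (p * p') := by
  rintro ⟨m, hm⟩
  obtain ⟨k, rfl⟩ : p ∣ m := (or_self_iff.1 (hp.dvd_mul.1 ⟨p', hm.symm⟩))
  have : p' = p * (k * k) := Nat.eq_of_mul_eq_mul_left hp.pos (by rw [hm]; ring)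
  exact h ((Nat.prime_dvd_prime_iff_eq hp hp').1 ⟨_, this⟩)

theorem base (h1 : HalfS.{u}) (h2 : PureS.{u}) (h3 : ParS.{u}) : BaseS.{u} := by
  classical
  intro R I _ _ _ _ ht hI I₀ hc
  obtain ⟨b, hb, hs⟩ := h1 R I ht hI
  obtain ⟨n, hn⟩ := Set.countable_iff_exists_injOn.1 hc
  obtain ⟨p1, p2⟩ := h2 R I b hb
  have hci : AlgebraicIndependent ℚ fun i => b i ^ 2 := by
    simpa using hb.polynomial_aeval_of_transcendental (f := fun _ => Polynomial.X ^ 2)
      fun _ => (Polynomial.transcendental_X ℚ).pow two_pos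
  have q3 := h3 R I _ hci
  have b0 : ∀ i, b i ≠ 0 := hb.ne_zero
  have bm : ∀ i, b i ∈ adjoin ℚ (Set.range b) := fun i => subset_adjoin _ _ ⟨i, rfl⟩
  have cm : ∀ i, b i ^ 2 ∈ adjoin ℚ (Set.range fun i => b i ^ 2) := fun i =>
    subset_adjoin _ _ ⟨i, rfl⟩
  have le : adjoin ℚ (Set.range fun i => b i ^ 2) ≤ adjoin ℚ (Set.range b) :=
    adjoin_le_iff.2 (by rintro _ ⟨i, rfl⟩; exact pow_mem (bm i) 2)
  have pp : ∀ i, (Nat.nth Nat.Prime (n i)).Prime := fun i => Nat.prime_nth_prime _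
  have p0 : ∀ i, ((Nat.nth Nat.Prime (n i) : ℕ) : ℚ) ≠ 0 := fun i => Nat.cast_ne_zero.2 (pp i).ne_zero
  refine ⟨Set.range fun i => b i ^ 2,
    fun i => if i ∈ I₀ then ((Nat.nth Nat.Prime (n i) : ℕ) : R) else b i ^ 2, fun i => ?_,
    fun i => ?_, fun i hi => ⟨_, if_pos hi⟩, fun i j hij z hz => ?_, fun i X hX Y hY Y0 e => ?_,
    fun s h => ?_⟩
  · beta_reduce
    split_ifs
    · exact IntermediateField.natCast_mem _ _
    · exact cm i
  · beta_reduce
    split_ifs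
    · exact Nat.cast_pos.2 (pp i).pos
    · exact sq_pos_of_ne_zero (b0 i)
  · beta_reduce
    split_ifs with hi hj hj
    · intro e
      obtain ⟨q, rfl⟩ := p1 z (le hz) ⟨(Nat.nth Nat.Prime (n i) * Nat.nth Nat.Prime (n j) : ℕ), by
        rw [e]; push_cast; rfl⟩
      refine base_nsq (pp i) (pp j) (fun e' => hij (hn hi hj
        (Nat.nth_injective Nat.infinite_setOfPred_prime e'))) (Rat.isSquare_natCast_iff.1 ⟨q, ?_⟩)
      rw [← sq]
      exact_mod_cast e.symm
    · simpa using (q3 z hz j _ (p0 i)).1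
    · simpa [mul_comm] using (q3 z hz i _ (p0 j)).1
    · exact (q3 z hz i 1 one_ne_zero).2 j hij.symm
  · beta_reduce at e
    by_cases hi : i ∈ I₀
    · rw [if_pos hi] at e
      exact ⟨hi, p2 _ (p0 i) X (le hX) Y (le hY) (by simpa using e)⟩
    · rw [if_neg hi] at e
      obtain ⟨q, rfl⟩ := p2 1 one_ne_zero X (le hX) (b i * Y) (mul_mem (bm i) (le hY))
        (by rw [← e]; push_cast; ring)
      have e2 : ((gg q : ℚ) : R) = b i ^ 2 * Y ^ 2 := by
        rw [e, gg, gg]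
        push_cast
        rfl
      refine ((q3 (b i ^ 2 * Y) (mul_mem (cm i) hY) i (gg q) fun e3 => ?_).1 ?_).elim
      · rw [e3, Rat.cast_zero] at e2
        exact mul_ne_zero (pow_ne_zero 2 (b0 i)) (pow_ne_zero 2 Y0) e2.symm
      · rw [e2]
        ring
  · obtain ⟨x, hx⟩ := hs s h
    refine ⟨x, Transcendental.of_tower_top_of_subalgebra_le
      (A := (adjoin ℚ ((Set.range fun i => b i ^ 2) ∪ s)).toSubalgebra)
      (B := (adjoin ℚ (Set.range b ∪ s)).toSubalgebra) ?_ hx⟩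
    refine (adjoin_le_iff.2 (Set.union_subset ?_ ?_) : adjoin ℚ _ ≤ adjoin ℚ (Set.range b ∪ s))
    · rintro _ ⟨i, rfl⟩
      exact pow_mem (subset_adjoin ℚ (Set.range b ∪ s) (Or.inl ⟨i, rfl⟩)) 2
    · exact fun y hy => subset_adjoin _ _ (Or.inr hy)

end Pool.Agent.MP_668d6d_lc

end

section

namespace Pool.Agent.MP_668d6d_lc

universe u

theorem intS : IntS.{u} := by
  intro R _ _ _ F hF p q hpq
  obtain ⟨z, hz⟩ := hF
  by_contra hc
  push Not at hc
  have h1 : ∀ x, p < x → x < q → x ∈ algebraicClosure F R := fun x h1 h2 =>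
    mem_algebraicClosure_iff.2 (not_not.1 (hc x h1 h2))
  have h2 : ∀ w, |w| < (q - p) / 2 → w ∈ algebraicClosure F R := fun w hw => by
    have hw' := abs_lt.1 hw
    have := sub_mem (h1 ((p + q) / 2 + w) (by linarith [hw'.1]) (by linarith [hw'.2]))
      (h1 ((p + q) / 2) (by linarith) (by linarith))
    rwa [add_sub_cancel_left] at this
  have hd : 0 < (q - p) / 2 := by linarith
  have ha : 0 ≤ |z| := abs_nonneg z
  have he : 0 < (q - p) / 2 / (|z| + 2) := by positivity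
  have h3 : (q - p) / 2 / (|z| + 2) * (|z| + 2) = (q - p) / 2 := by field_simp
  generalize (q - p) / 2 / (|z| + 2) = e at he h3
  have := div_mem (h2 (z * e) (by rw [abs_mul, abs_of_pos he]; nlinarith))
    (h2 e (by rw [abs_of_pos he]; nlinarith))
  rw [mul_div_cancel_right₀ _ he.ne'] at this
  exact hz (mem_algebraicClosure_iff.1 this)

end Pool.Agent.MP_668d6d_lc

end

section

/-! The transfinite construction of the dense subfield. -/

namespace Pool.Agent.MP_668d6d_lc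

open IntermediateField

universe u

variable {R I : Type u} [Field R] [LinearOrder R] [IsStrictOrderedRing R]

/-- The invariant of the construction. -/
def coreGood (a : I → R) (U : I → Set R) (F : IntermediateField ℚ R) : Prop :=
  (∀ i j, i ≠ j → ∀ z ∈ F, z ^ 2 ≠ a i * a j) ∧
    ∀ i, ∀ X ∈ F, ∀ Y ∈ F, Y ≠ 0 → a i * Y ^ 2 = gg X → X ∈ U i

/-- What a task asks from the new pair. -/
def coreTask (a : I → R) (U : I → Set R) (F : IntermediateField ℚ R) (x y : R) :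
    (R × R) ⊕ R ⊕ R ⊕ (I × R × R) → Prop
  | .inl (p, q) => p < q → p < x ∧ x < q
  | .inr (.inl r) => Transcendental F r → x = r
  | .inr (.inr (.inl c)) => c ∈ F → 0 < c → c = x ^ 2 + y ^ 2
  | .inr (.inr (.inr (i, p, q))) => 6 ≤ p → p < q → Set.Ioo p q ⊆ U i →
      y ≠ 0 ∧ a i * y ^ 2 = gg x ∧ p < x ∧ x < q

theorem core_keep {a : I → R} {U : I → Set R} {F L : IntermediateField ℚ R} (ha : ∀ i, a i ∈ F)
    (ha0 : ∀ i, 0 < a i) (hG : coreGood a U F) (h1 : ∀ z ∈ L, z ^ 2 ∈ F → z ∈ F)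
    (h2 : ∀ i, ∀ X ∈ L, ∀ Y ∈ L, a i * Y ^ 2 = gg X → X ∈ F ∨ X ∈ U i) : coreGood a U L := by
  refine ⟨fun i j hij z hz e => hG.1 i j hij z (h1 z hz (e ▸ mul_mem (ha i) (ha j))) e,
    fun i X hX Y hY h0 e => (h2 i X hX Y hY e).elim (fun hF => ?_) id⟩
  refine hG.2 i X hF Y (h1 Y hY ?_) h0 e
  have : Y ^ 2 = gg X / a i := by rw [← e, mul_div_cancel_left₀ _ (ha0 i).ne']
  rw [this]
  refine div_mem ?_ (ha i)
  unfold gg
  have hn : ∀ n : ℕ, X - n ∈ F := fun n => sub_mem hF (_root_.natCast_mem _ n)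
  exact mul_mem (mul_mem (mul_mem (mul_mem (mul_mem hF (sub_mem hF (one_mem _))) (hn 2)) (hn 3))
    (hn 4)) (hn 6)

theorem core_adj {A s : Set R} {x y z : R} (hz : z ∈ adjoin ℚ (A ∪ (s ∪ {x, y}))) :
    z ∈ adjoin (adjoin ℚ (A ∪ s)) {x, y} := by
  rw [← Set.union_assoc, ← adjoin_adjoin_left] at hz
  exact hz

theorem core_range {F : IntermediateField ℚ R} {z : R} : z ∈ (algebraMap F R).range ↔ z ∈ F :=
  ⟨fun ⟨w, hw⟩ => hw ▸ w.2, fun h => ⟨⟨z, h⟩, rfl⟩⟩

theorem core_conic [IsRealClosed R] (hc : ConicS.{u}) {a : I → R} {U : I → Set R} {A s : Set R}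
    (ha : ∀ i, a i ∈ adjoin ℚ (A ∪ s)) (ha0 : ∀ i, 0 < a i)
    (hG : coreGood a U (adjoin ℚ (A ∪ s))) {x : R} (hx : Transcendental (adjoin ℚ (A ∪ s)) x)
    (α β : adjoin ℚ (A ∪ s)) (hα : α ≠ 0) (hβ : β ≠ 0) (h : 0 ≤ (α : R) * x ^ 2 + β) :
    ∃ y, y ^ 2 = (α : R) * x ^ 2 + β ∧ coreGood a U (adjoin ℚ (A ∪ (s ∪ {x, y}))) := by
  obtain ⟨y, hy⟩ := IsRealClosed.nonneg_iff_isSquare.1 h
  have e : y ^ 2 = (α : R) * x ^ 2 + β := by rw [hy, sq]
  obtain ⟨h1, h2⟩ := hc _ R x y α β hx hα hβ e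
  exact ⟨y, e, core_keep ha ha0 hG
    (fun z hz h => core_range.1 (h1 z (core_adj hz) (core_range.2 h)))
    fun i X hX Y hY e' => Or.inl (core_range.1 (h2 ⟨a i, ha i⟩
      (fun h0 => (ha0 i).ne' (congrArg Subtype.val h0)) X (core_adj hX) Y (core_adj hY) e'))⟩

theorem core_step [IsRealClosed R] (hc : ConicS.{u}) (hs : SextS.{u}) (hi : IntS.{u})
    {a : I → R} {U : I → Set R} {A s : Set R}
    (ha : ∀ i, a i ∈ adjoin ℚ (A ∪ s)) (ha0 : ∀ i, 0 < a i)
    (hG : coreGood a U (adjoin ℚ (A ∪ s))) (ht : ∃ x : R, Transcendental (adjoin ℚ (A ∪ s)) x)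
    (t : (R × R) ⊕ R ⊕ R ⊕ (I × R × R)) :
    ∃ x y, coreGood a U (adjoin ℚ (A ∪ (s ∪ {x, y}))) ∧ coreTask a U (adjoin ℚ (A ∪ s)) x y t := by
  have h1 : ∀ x : R, Transcendental (adjoin ℚ (A ∪ s)) x →
      ∃ y, coreGood a U (adjoin ℚ (A ∪ (s ∪ {x, y}))) := fun x hx => by
    obtain ⟨y, _, hy⟩ := core_conic hc ha ha0 hG hx 1 1 one_ne_zero one_ne_zero
      (by simp only [OneMemClass.coe_one]; positivity)
    exact ⟨y, hy⟩
  obtain ⟨x₀, hx₀⟩ := id ht
  obtain ⟨y₀, hy₀⟩ := h1 x₀ hx₀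
  rcases t with ⟨p, q⟩ | r | c | ⟨i, p, q⟩
  · by_cases h : p < q
    · obtain ⟨x, h2, h3, hx⟩ := hi R _ ht p q h
      obtain ⟨y, hy⟩ := h1 x hx
      exact ⟨x, y, hy, fun _ => ⟨h2, h3⟩⟩
    · exact ⟨x₀, y₀, hy₀, fun h' => absurd h' h⟩
  · by_cases h : Transcendental (adjoin ℚ (A ∪ s)) r
    · obtain ⟨y, hy⟩ := h1 r h
      exact ⟨r, y, hy, fun _ => rfl⟩
    · exact ⟨x₀, y₀, hy₀, fun h' => absurd h' h⟩
  · by_cases h : c ∈ adjoin ℚ (A ∪ s) ∧ 0 < c
    · obtain ⟨x, h2, h3, hx⟩ := hi R _ ht 0 (min c 1) (lt_min h.2 one_pos)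
      obtain ⟨h4, h5⟩ := lt_min_iff.1 h3
      obtain ⟨y, e, hy⟩ := core_conic hc ha ha0 hG hx (-1) ⟨c, h.1⟩ (neg_ne_zero.2 one_ne_zero)
        (fun h0 => h.2.ne' (congrArg Subtype.val h0))
        (by simp only [NegMemClass.coe_neg, OneMemClass.coe_one]; nlinarith)
      simp only [NegMemClass.coe_neg, OneMemClass.coe_one] at e
      exact ⟨x, y, hy, fun _ _ => by linear_combination -e⟩
    · exact ⟨x₀, y₀, hy₀, fun h1 h2 => absurd ⟨h1, h2⟩ h⟩
  · by_cases h : 6 ≤ p ∧ p < q ∧ Set.Ioo p q ⊆ U i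
    · obtain ⟨x, h2, h3, hx⟩ := hi R _ ht p q h.2.1
      have h6 : 6 < x := h.1.trans_lt h2
      have hg : 0 < gg x := by
        unfold gg
        exact mul_pos (mul_pos (mul_pos (mul_pos (mul_pos (by linarith) (by linarith))
          (by linarith)) (by linarith)) (by linarith)) (by linarith)
      obtain ⟨y, hy⟩ := IsRealClosed.nonneg_iff_isSquare.1 (div_pos hg (ha0 i)).le
      have e : a i * y ^ 2 = gg x := by rw [sq, ← hy, mul_div_cancel₀ _ (ha0 i).ne']
      have hn : ∀ j, (⟨a j, ha j⟩ : adjoin ℚ (A ∪ s)) ≠ 0 :=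
        fun j h0 => (ha0 j).ne' (congrArg Subtype.val h0)
      obtain ⟨h7, h8⟩ := hs _ R x y ⟨a i, ha i⟩ hx (hn i) e
      refine ⟨x, y, core_keep ha ha0 hG
        (fun z hz h => core_range.1 (h7 z (core_adj hz) (core_range.2 h))) fun j X hX Y hY e' => ?_,
        fun _ _ _ => ⟨fun h0 => hg.ne' (by rw [← e, h0]; simp), e, h2, h3⟩⟩
      rcases h8 ⟨a j, ha j⟩ (hn j) X (core_adj hX) Y (core_adj hY) e' with h9 | ⟨rfl, w, hw⟩
      · exact Or.inl (core_range.1 h9)
      · by_cases hij : j = i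
        · exact Or.inr (hij ▸ h.2.2 ⟨h2, h3⟩)
        · exact absurd (by rw [sq]; exact (congrArg Subtype.val hw).symm) (hG.1 j i hij w w.2)
    · exact ⟨x₀, y₀, hy₀, fun h1 h2 h3 => absurd ⟨h1, h2, h3⟩ h⟩

theorem core_mono (A : Set R) {s t : Set R} (h : s ⊆ t) : adjoin ℚ (A ∪ s) ≤ adjoin ℚ (A ∪ t) :=
  adjoin.mono _ _ _ (Set.union_subset_union_right A h)

theorem core_fin {A s : Set R} {z : R} (hz : z ∈ adjoin ℚ (A ∪ s)) :
    ∃ w : Finset R, (w : Set R) ⊆ s ∧ z ∈ adjoin ℚ (A ∪ w) := by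
  classical
  obtain ⟨T, hT, h⟩ := exists_finset_of_mem_adjoin hz
  refine ⟨T.filter (· ∈ s), fun r hr => (Finset.mem_filter.1 hr).2, adjoin.mono _ _ _ ?_ h⟩
  intro r hr
  exact (hT hr).imp id fun h' => Finset.mem_filter.2 ⟨hr, h'⟩

theorem core_chain {A : Set R} {c : Set (Set R)} (hn : c.Nonempty) (hc : IsChain (· ⊆ ·) c)
    {z : R} (hz : z ∈ adjoin ℚ (A ∪ ⋃₀ c)) : ∃ s ∈ c, z ∈ adjoin ℚ (A ∪ s) := by
  obtain ⟨w, hw, h⟩ := core_fin hz
  obtain ⟨s, hs, hws⟩ := DirectedOn.exists_mem_subset_of_finset_subset_biUnion hn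
    (f := fun s : Set R => s) hc.directedOn (s := w) (by rwa [← Set.sUnion_eq_biUnion])
  exact ⟨s, hs, core_mono A hws h⟩

theorem core (hc : ConicS.{u}) (hs : SextS.{u}) (hr : RecS.{u}) (hb : BaseS.{u})
    (hi : IntS.{u}) : CoreS.{u} := by
  intro R I _ _ _ _ hR hI I₀ h₀ U hU
  obtain ⟨A, a, haA, ha0, haN, hsq, hpt, htr⟩ := hb R I hR hI I₀ h₀
  have ha : ∀ s i, a i ∈ adjoin ℚ (A ∪ s) := fun s i =>
    adjoin.mono _ _ _ Set.subset_union_left (haA i)
  have hκ : Cardinal.aleph0 ≤ Cardinal.mk R := Cardinal.aleph0_le_mk R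
  have hm : ∀ {α β : Cardinal.{u}}, α ≤ Cardinal.mk R → β ≤ Cardinal.mk R →
      α * β ≤ Cardinal.mk R := fun h1 h2 =>
    (mul_le_mul' h1 h2).trans (Cardinal.mul_eq_self hκ).le
  obtain ⟨s, hP, hQ⟩ := hr R ((R × R) ⊕ R ⊕ R ⊕ (I × R × R)) (by
      simp only [Cardinal.mk_sum, Cardinal.mk_prod, Cardinal.lift_id]
      exact Cardinal.add_le_of_le hκ (hm le_rfl le_rfl) (Cardinal.add_le_of_le hκ le_rfl
        (Cardinal.add_le_of_le hκ le_rfl (hm hI (hm le_rfl le_rfl)))))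
    (fun s => coreGood a U (adjoin ℚ (A ∪ s)))
    (fun t s x y => coreTask a U (adjoin ℚ (A ∪ s)) x y t)
    (by
      rw [Set.union_empty]
      refine ⟨hsq, fun i X hX Y hY h0 e => ?_⟩
      obtain ⟨h1, q, rfl⟩ := hpt i X hX Y hY h0 e
      exact hU i h1 q)
    (by
      intro c hn hch hP
      refine ⟨fun i j hij z hz => ?_, fun i X hX Y hY h0 e => ?_⟩
      · obtain ⟨s, hs, h⟩ := core_chain hn hch hz
        exact (hP s hs).1 i j hij z h
      · obtain ⟨s, hs, h⟩ := core_chain hn hch hX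
        obtain ⟨s', hs', h'⟩ := core_chain hn hch hY
        rcases hch.total hs hs' with hle | hle
        · exact (hP s' hs').2 i X (core_mono A hle h) Y h' h0 e
        · exact (hP s hs).2 i X h Y (core_mono A hle h') h0 e)
    (fun t s hlt hP => core_step hc hs hi (ha s) ha0 hP (htr s hlt) t)
  have hin : ∀ x ∈ s, x ∈ adjoin ℚ (A ∪ s) := fun x hx => subset_adjoin _ _ (Or.inr hx)
  refine ⟨(adjoin ℚ (A ∪ s)).toSubfield, a, ⟨fun r => ?_⟩, fun p q h => ?_, fun c hc h => ?_,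
    ha s, haN, hP.2, fun i p q h1 h2 h3 => ?_⟩
  · obtain ⟨s₁, x, y, _, h1, hx, _, h⟩ := hQ (.inr (.inl r)) ∅ (by simp)
    change IsAlgebraic (adjoin ℚ (A ∪ s)) r
    by_cases ht : Transcendental (adjoin ℚ (A ∪ s₁)) r
    · exact isAlgebraic_algebraMap (⟨r, h ht ▸ hin x hx⟩ : adjoin ℚ (A ∪ s))
    · exact IsAlgebraic.tower_top_of_subalgebra_le
        (A := (adjoin ℚ (A ∪ s₁)).toSubalgebra) (B := (adjoin ℚ (A ∪ s)).toSubalgebra)
        (core_mono A h1) (not_not.1 ht)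
  · obtain ⟨s₁, x, y, _, _, hx, _, h'⟩ := hQ (.inl (p, q)) ∅ (by simp)
    exact ⟨x, hin x hx, h' h⟩
  · obtain ⟨w, hw, hcw⟩ := core_fin hc
    obtain ⟨s₁, x, y, h1, _, hx, hy, h'⟩ := hQ (.inr (.inr (.inl c))) w hw
    exact ⟨x, hin x hx, y, hin y hy, h' (core_mono A h1 hcw) h⟩
  · obtain ⟨s₁, x, y, _, _, hx, hy, h'⟩ := hQ (.inr (.inr (.inr (i, p, q)))) ∅ (by simp)
    exact ⟨x, hin x hx, y, hin y hy, h' h1 h2 h3⟩

end Pool.Agent.MP_668d6d_lc

end

section

namespace Pool.Agent.MP_668d6d_lc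

universe u

open FirstOrder FirstOrder.Language FirstOrder.Ring

section

variable {K : Type u} [Field K] [CompatibleRing K] {A : Set K} {ι : Type}
  {f g : (ι → K) → K}

theorem dfn_add (hf : A.DefinableFun Language.ring f) (hg : A.DefinableFun Language.ring g) :
    A.DefinableFun Language.ring fun v => f v + g v := by
  have hF : A.DefinableMap Language.ring (fun v => ![f v, g v]) := by
    simp [Set.DefinableMap, *]
  simpa using Set.DefinableFun.comp hF (Set.DefinableFun.fun_symbol addFunc).of_empty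

theorem dfn_mul (hf : A.DefinableFun Language.ring f) (hg : A.DefinableFun Language.ring g) :
    A.DefinableFun Language.ring fun v => f v * g v := by
  have hF : A.DefinableMap Language.ring (fun v => ![f v, g v]) := by
    simp [Set.DefinableMap, *]
  simpa using Set.DefinableFun.comp hF (Set.DefinableFun.fun_symbol mulFunc).of_empty

theorem dfn_neg (hf : A.DefinableFun Language.ring f) :
    A.DefinableFun Language.ring fun v => -f v := by
  have hF : A.DefinableMap Language.ring (fun v => ![f v]) := by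
    simp [Set.DefinableMap, *]
  simpa using Set.DefinableFun.comp hF (Set.DefinableFun.fun_symbol negFunc).of_empty

theorem dfn_sub (hf : A.DefinableFun Language.ring f) (hg : A.DefinableFun Language.ring g) :
    A.DefinableFun Language.ring fun v => f v - g v := by
  simpa only [sub_eq_add_neg] using dfn_add hf (dfn_neg hg)

theorem dfn_sq (hf : A.DefinableFun Language.ring f) :
    A.DefinableFun Language.ring fun v => f v ^ 2 := by
  simpa only [sq] using dfn_mul hf hf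

theorem dfn_nat (n : ℕ) : A.DefinableFun Language.ring fun _ : ι → K => (n : K) := by
  induction n with
  | zero =>
    have := ((0 : Language.ring.Term ι).definableFun_realize (M := K)).of_empty (A := A)
    rwa [show (fun v : ι → K => Term.realize v (0 : Language.ring.Term ι)) = fun _ => ((0 : ℕ) : K)
      from funext fun v => by simp] at this
  | succ n ih =>
    have := ((1 : Language.ring.Term ι).definableFun_realize (M := K)).of_empty (A := A)
    rw [show (fun v : ι → K => Term.realize v (1 : Language.ring.Term ι)) = fun _ => (1 : K)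
      from funext fun v => by simp] at this
    simpa only [Nat.cast_succ] using dfn_add ih this

theorem dfn_gg (hf : A.DefinableFun Language.ring f) :
    A.DefinableFun Language.ring fun v => gg (f v) := by
  simpa [gg] using dfn_mul (dfn_mul (dfn_mul (dfn_mul (dfn_mul hf (dfn_sub hf (dfn_nat 1)))
    (dfn_sub hf (dfn_nat 2))) (dfn_sub hf (dfn_nat 3))) (dfn_sub hf (dfn_nat 4)))
    (dfn_sub hf (dfn_nat 6))

theorem dfn_ring {a : K} (ha : a ∈ A ∨ ∃ n : ℕ, a = n) :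
    A.Definable Language.ring {v : Fin 1 → K | ∃ X Y t r : K,
      a * Y ^ 2 = gg X ∧ X ^ 2 - v 0 ^ 2 = t ^ 2 + r ^ 2} := by
  have p : ∀ i : Fin 1 ⊕ Fin 4, A.DefinableFun Language.ring fun v : Fin 1 ⊕ Fin 4 → K => v i :=
    fun i => Set.DefinableFun.proj _
  have c : A.DefinableFun Language.ring fun _ : Fin 1 ⊕ Fin 4 → K => a := by
    rcases ha with ha | ⟨n, rfl⟩
    · exact Language.ring.definableFun_const _ ha
    · exact dfn_nat n
  have h := (((dfn_mul c (dfn_sq (p (.inr 1)))).ofPred_eq (dfn_gg (p (.inr 0)))).inter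
    ((dfn_sub (dfn_sq (p (.inr 0))) (dfn_sq (p (.inl 0)))).ofPred_eq
      (dfn_add (dfn_sq (p (.inr 2))) (dfn_sq (p (.inr 3)))))).exists_of_finite
  refine (congrArg (A.Definable Language.ring) (Set.ext fun v => ⟨?_, ?_⟩)).mp h
  · rintro ⟨w, h1, h2⟩
    exact ⟨w 0, w 1, w 2, w 3, h1, h2⟩
  · rintro ⟨X, Y, t, r, h1, h2⟩
    exact ⟨![X, Y, t, r], h1, h2⟩

end

theorem dfn : DefS.{u} := by
  intro K _ _ a A s ha hs
  let := compatibleRingOfRing K
  let := orderStructure K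
  have h := (dfn_ring ha).map_expansion (LHom.sumInl (L' := Language.order))
  exact (congrArg (A.Definable (Language.ring.sum Language.order))
    (Set.ext fun v => (hs (v 0)).symm)).mp h

end Pool.Agent.MP_668d6d_lc

end

section

namespace Pool.Agent.MP_668d6d_lc

open FirstOrder FirstOrder.Language

universe u

theorem cnt : CntS.{u} := by
  intro K _ _ A
  let := FirstOrder.Ring.compatibleRingOfRing K
  let := FirstOrder.Language.orderStructure K
  have h : ∀ s : {s : Set K | OrDefinable K A s},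
      ∃ φ : (Language.ring.sum Language.order).Formula (A ⊕ Fin 1),
        {v : Fin 1 → K | v 0 ∈ s.1} = {v | φ.Realize (Sum.elim (↑) v)} := fun s =>
    Set.definable_iff_exists_formula_sum.1 s.2
  choose φ hφ using h
  have inj : Function.Injective fun s =>
      (⟨0, φ s⟩ : Σ n, (Language.ring.sum Language.order).BoundedFormula (A ⊕ Fin 1) n) :=
    fun s t e => by
      have e' : φ s = φ t := eq_of_heq (Sigma.mk.inj e).2
      have e2 := (hφ s).trans (e' ▸ (hφ t).symm)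
      exact Subtype.ext (Set.ext fun x => Set.ext_iff.1 e2 fun _ => x)
  refine (Cardinal.mk_le_of_injective inj).trans (BoundedFormula.card_le.trans
    (max_le (le_max_left _ _) ?_))
  have l : Cardinal.aleph0.{u} ≤ max Cardinal.aleph0 (Cardinal.mk A) := le_max_left _ _
  refine Cardinal.add_le_of_le l ?_ (le_trans ?_ l)
  · rw [Cardinal.lift_uzero, Cardinal.mk_sum, Cardinal.lift_uzero]
    refine Cardinal.add_le_of_le l (le_max_right _ _) (le_trans ?_ l)
    simp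
  · rw [card_sum, FirstOrder.Ring.card_ring, order.card_eq_one]
    norm_num

end Pool.Agent.MP_668d6d_lc

end

section

/-! From the dense subfield with prescribed points to the three equivalent statements. -/

namespace Pool.Agent.MP_668d6d_lc

universe u

variable {R : Type u} [Field R] [LinearOrder R] [IsStrictOrderedRing R]

theorem fin_abs {O : ValuationSubring R} {x : R} (hx : x ∈ O) : |x| ∈ O := by
  rcases abs_choice x with h | h <;> rw [h]
  · exact hx
  · exact neg_mem hx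

theorem fin_conv {O : ValuationSubring R} (hO : (O : Set R).OrdConnected) {x y : R} (hx : x ∈ O)
    (h : |y| ≤ |x|) : y ∈ O :=
  hO.out (neg_mem (fin_abs hx)) (fin_abs hx) (abs_le.1 h)

theorem fin_rat {O : ValuationSubring R} (hO : (O : Set R).OrdConnected) (q : ℚ) : (q : R) ∈ O :=
  fin_conv hO (natCast_mem O ⌈|q|⌉₊) (by
    rw [Nat.abs_cast, ← Rat.cast_abs]
    exact_mod_cast Nat.le_ceil |q|)

theorem fin_root {O : ValuationSubring R} {X : R} (h : gg X = 0) : X ∈ O := by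
  simp only [gg, mul_eq_zero, sub_eq_zero] at h
  rcases h with ((((h | h) | h) | h) | h) | h <;> rw [h]
  exacts [zero_mem _, one_mem _, ofNat_mem _ 2, ofNat_mem _ 3, ofNat_mem _ 4, ofNat_mem _ 6]

theorem fin_inj {K : Subfield R} (hK : ∀ p q : R, p < q → ∃ x ∈ K, p < x ∧ x < q)
    {O O' : ValuationSubring R} (hO : (O : Set R).OrdConnected) (hO' : (O' : Set R).OrdConnected)
    (h : {x : K | (x : R) ∈ O} ⊆ {x : K | (x : R) ∈ O'}) : O ≤ O' := fun x hx => by
  obtain ⟨k, hk, h1, h2⟩ := hK |x| (|x| + 1) (lt_add_one _)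
  have h0 := abs_nonneg x
  have h3 : k ∈ O := fin_conv hO (add_mem (fin_abs hx) (one_mem O))
    (by rw [abs_of_nonneg (a := k) (by linarith), abs_of_nonneg (a := |x| + 1) (by linarith)]
        exact h2.le)
  exact fin_conv hO' (h (a := ⟨k, hk⟩) h3) (h1.le.trans (le_abs_self k))

theorem fin_card (hC : CntS.{u}) {K : Subfield R} (hK : ∀ p q : R, p < q → ∃ x ∈ K, p < x ∧ x < q)
    {S : Set (ValuationSubring R)} (hS : ∀ O ∈ S, (O : Set R).OrdConnected) (A : Set K)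
    (h : ∀ O ∈ S, OrDefinable K A {x : K | (x : R) ∈ O}) :
    Cardinal.mk S ≤ max Cardinal.aleph0 (Cardinal.mk A) :=
  (Cardinal.mk_le_of_injective (f := fun O : S =>
    (⟨{x : K | (x : R) ∈ O.1}, h O.1 O.2⟩ : {s : Set K | OrDefinable K A s})) fun O O' e => by
      have e' : {x : K | (x : R) ∈ O.1} = {x : K | (x : R) ∈ O'.1} := congrArg Subtype.val e
      exact Subtype.ext (le_antisymm (fin_inj hK (hS _ O.2) (hS _ O'.2) e'.le)
        (fin_inj hK (hS _ O'.2) (hS _ O.2) e'.ge))).trans (hC K A)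

theorem fin_gg (K : Subfield R) (X : K) : ((gg X : K) : R) = gg (X : R) := by
  simp [gg]; norm_cast

theorem fin_main [IsRealClosed R] (hc : CoreS.{u}) (hR : Cardinal.aleph0 ≤ Algebra.trdeg ℚ R)
    {S S₀ : Set (ValuationSubring R)} (hS : ∀ O ∈ S ∪ S₀, (O : Set R).OrdConnected)
    (h1 : Cardinal.mk S ≤ Cardinal.mk R) (h0 : S₀.Countable) :
    ∃ K : Subfield R, Algebra.IsAlgebraic K R ∧ (∀ p q : R, p < q → ∃ x ∈ K, p < x ∧ x < q) ∧
      (∀ c : K, 0 < c → ∃ s r : K, c = s ^ 2 + r ^ 2) ∧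
      ∀ O ∈ S ∪ S₀, ∃ a b : K, (O ∈ S₀ → ∃ n : ℕ, a = n) ∧ ∀ x : K,
        ((x : R) ∈ O ↔ ∃ X Y s r : K, a * Y ^ 2 = gg X ∧ X ^ 2 - x ^ 2 = s ^ 2 + r ^ 2) ∧
        ((x : R) ∉ O ↔ ∃ X Y s r : K, Y ≠ 0 ∧ b * Y ^ 2 = gg X ∧
          x ^ 2 - X ^ 2 = s ^ 2 + r ^ 2) := by
  have hκ : Cardinal.aleph0 ≤ Cardinal.mk R := Cardinal.aleph0_le_mk R
  have h2 : Cardinal.mk ↥(S ∪ S₀) ≤ Cardinal.mk R := (Cardinal.mk_union_le S S₀).trans
    (Cardinal.add_le_of_le hκ h1 ((Cardinal.le_aleph0_iff_set_countable.2 h0).trans hκ))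
  obtain ⟨K, a, hA, hD, hsq, haK, haN, hpt, hex⟩ := hc R (↥(S ∪ S₀) ⊕ ↥(S ∪ S₀)) hR
    (by simpa using Cardinal.add_le_of_le hκ h2 h2) (Sum.inl '' (Subtype.val ⁻¹' S₀))
    ((h0.preimage Subtype.val_injective).image _)
    (Sum.elim (fun O => (O.1 : Set R)) fun O => (O.1 : Set R)ᶜ)
    (by rintro _ ⟨O, _, rfl⟩ q; exact fin_rat (hS _ O.2) q)
  have hsq' : ∀ c : K, 0 < c → ∃ s r : K, c = s ^ 2 + r ^ 2 := fun c hc => by
    obtain ⟨s, hs, r, hr, e⟩ := hsq c c.2 hc
    exact ⟨⟨s, hs⟩, ⟨r, hr⟩, Subtype.ext (by simpa using e)⟩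
  have hle : ∀ x X s r : K, X ^ 2 - x ^ 2 = s ^ 2 + r ^ 2 → |(x : R)| ≤ |(X : R)| := by
    intro x X s r e
    have e' : (X : R) ^ 2 - x ^ 2 = s ^ 2 + r ^ 2 := by simpa using congrArg Subtype.val e
    exact sq_le_sq.1 (by nlinarith [sq_nonneg (s : R), sq_nonneg (r : R)])
  have hlt : ∀ x X : K, |(x : R)| < |(X : R)| → ∃ s r : K, X ^ 2 - x ^ 2 = s ^ 2 + r ^ 2 :=
    fun x X h => hsq' _ (by
      rw [← Subtype.coe_lt_coe]
      simpa using sq_lt_sq.2 h)
  have heq : ∀ i (X Y : K), (⟨a i, haK i⟩ : K) * Y ^ 2 = gg X ↔ a i * (Y : R) ^ 2 = gg (X : R) :=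
    fun i X Y => by rw [Subtype.ext_iff, fin_gg]; simp
  refine ⟨K, hA, hD, hsq', fun O hO => ⟨⟨a (.inl ⟨O, hO⟩), haK _⟩, ⟨a (.inr ⟨O, hO⟩), haK _⟩,
    fun h => ?_, fun x => ⟨⟨fun hx => ?_, ?_⟩, ⟨fun hx => ?_, ?_⟩⟩⟩⟩
  · obtain ⟨n, hn⟩ := haN (.inl ⟨O, hO⟩) ⟨⟨O, hO⟩, h, rfl⟩
    exact ⟨n, Subtype.ext (by simpa using hn)⟩
  · have h0 := abs_nonneg (x : R)
    obtain ⟨X, hX, Y, hY, _, e, h3, _⟩ := hex (.inl ⟨O, hO⟩) (|(x : R)| + 6) (|(x : R)| + 7)
      (by linarith) (by linarith) fun z hz =>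
        fin_conv (hS O hO) (add_mem (fin_abs hx) (ofNat_mem O 7)) (by
          rw [abs_of_nonneg (a := z) (by linarith [hz.1]),
            abs_of_nonneg (a := |(x : R)| + 7) (by linarith)]
          exact hz.2.le)
    obtain ⟨s, r, e'⟩ := hlt x ⟨X, hX⟩ (by linarith [le_abs_self X])
    exact ⟨⟨X, hX⟩, ⟨Y, hY⟩, s, r, (heq _ _ _).2 e, e'⟩
  · rintro ⟨X, Y, s, r, e, e'⟩
    rw [heq] at e
    refine fin_conv (hS O hO) (x := X) ?_ (hle x X s r e')
    by_cases hY : (Y : R) = 0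
    · exact fin_root (by rw [← e, hY]; simp)
    · exact hpt _ X X.2 Y Y.2 hY e
  · have h3 : 12 < |(x : R)| := not_le.1 fun h =>
      hx (fin_conv (hS O hO) (ofNat_mem O 12) (h.trans (le_abs_self _)))
    obtain ⟨X, hX, Y, hY, hY0, e, h4, h5⟩ := hex (.inr ⟨O, hO⟩) (|(x : R)| / 2) |(x : R)|
      (by linarith) (by linarith) fun z hz hzO =>
        hx (fin_conv (hS O hO) (add_mem hzO hzO) (by linarith [hz.1, le_abs_self (z + z)]))
    obtain ⟨s, r, e'⟩ := hlt ⟨X, hX⟩ x (by rwa [abs_of_nonneg (a := X) (by linarith)])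
    exact ⟨⟨X, hX⟩, ⟨Y, hY⟩, s, r, fun h => hY0 (congrArg Subtype.val h), (heq _ _ _).2 e, e'⟩
  · rintro ⟨X, Y, s, r, hY, e, e'⟩ hx
    rw [heq] at e
    exact hpt _ X X.2 Y Y.2 (fun h => hY (Subtype.ext h)) e (fin_conv (hS O hO) hx (hle X x s r e'))

end Pool.Agent.MP_668d6d_lc

end
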